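import Pool.Graph.R_seed8.W27.BG.Good

/-! Square root cancellation for products of shifts over any finite field, and for products of
shifted binary quadratic forms over a prime field. -/

set_option autoImplicit false

namespace Pool.Agent.H424.QP

open Finset Pool.Agent.H471R4.BW Polynomial Pool.Agent.H435R3.Weil

/-- some value is taken exactly once in two tuples together -/
def UniqF {F : Type} [DecidableEq F] {r : ℕ} (b c : Fin r → F) : Prop :=
  ∃ v : F, (univ.filter fun i => b i = v).card + (univ.filter fun i => c i = v).card = 1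

theorem rm_count {F : Type} [Field F] [DecidableEq F] {r : ℕ} (b : Fin r → F) (v : F) :
    ∑ i, rootMultiplicity (-v) (X + C (b i) : F[X]) = (univ.filter fun i => b i = v).card := by
  classical
  rw [card_filter]
  refine sum_congr rfl fun i _ => ?_
  have e : (X + C (b i) : F[X]) = X - C (-(b i)) := by
    rw [map_neg, sub_neg_eq_add]
  rw [e, rootMultiplicity_X_sub_C]
  by_cases hc : b i = v
  · rw [if_pos (by rw [hc]), if_pos hc]
  · rw [if_neg (fun h' => hc (neg_inj.1 h').symm), if_neg hc]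

theorem complete_field {F : Type} [Field F] [Fintype F] [DecidableEq F] (χ : MulChar F ℂ)
    (hχ : χ ≠ 1) (r : ℕ) (b c : Fin r → F) (huniq : UniqF b c) :
    ‖∑ x : F, (∏ i, χ (x + b i)) * ∏ i, (starRingEnd ℂ) (χ (x + c i))‖
      ≤ (2 * r) * Real.sqrt (Fintype.card F) := by
  classical
  set t := orderOf χ with ht
  have hdvd : t ∣ Fintype.card F - 1 := MulChar.orderOf_dvd_card_sub_one (F := F) χ
  have ht0 : t ≠ 0 := by
    intro h0
    rw [h0, zero_dvd_iff] at hdvd
    have : 1 < Fintype.card F := Fintype.one_lt_card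
    omega
  have ht1 : t ≠ 1 := fun h1 => hχ (orderOf_eq_one_iff.1 h1)
  have ht2 : 2 ≤ t := by omega
  have hχt : χ ^ t = 1 := pow_orderOf_eq_one χ
  set P : F[X] := ∏ i, (X + C (b i)) with hP
  set R : F[X] := ∏ i, (X + C (c i)) with hR
  have hPm : P.Monic := monic_prod_of_monic _ _ fun i _ => monic_X_add_C _
  have hRm : R.Monic := monic_prod_of_monic _ _ fun i _ => monic_X_add_C _
  have hF0 : P * R ^ (t - 1) ≠ 0 := (hPm.mul (hRm.pow _)).ne_zero
  have hPdeg : P.natDegree = r := by
    rw [hP, natDegree_prod_of_monic _ _ fun i _ => monic_X_add_C _,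
      sum_congr rfl (fun i _ => natDegree_X_add_C (b i))]
    simp
  have hRdeg : R.natDegree = r := by
    rw [hR, natDegree_prod_of_monic _ _ fun i _ => monic_X_add_C _,
      sum_congr rfl (fun i _ => natDegree_X_add_C (c i))]
    simp
  have hcop : Cop t (P * R ^ (t - 1)) := by
    obtain ⟨v, hv⟩ := huniq
    refine ⟨-v, ?_⟩
    have e2 : rootMultiplicity (-v) (P * R ^ (t - 1)) =
        (univ.filter fun i => b i = v).card + (t - 1) * (univ.filter fun i => c i = v).card := by
      rw [rootMultiplicity_mul hF0, csl_rm_pow R _ hRm.ne_zero, hP, hR,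
        csl_rm_prod _ _ _ (fun i _ => (monic_X_add_C _).ne_zero),
        csl_rm_prod _ _ _ (fun i _ => (monic_X_add_C _).ne_zero),
        rm_count b v, rm_count c v]
    rw [e2]
    rcases Nat.eq_zero_or_pos (univ.filter fun i => b i = v).card with h0 | h0
    · have h1 : (univ.filter fun i => c i = v).card = 1 := by omega
      rw [h0, h1, zero_add, mul_one]
      have h2 : t = (t - 1) + 1 := by omega
      have h3 : Nat.Coprime (t - 1) ((t - 1) + 1) := by simp
      rwa [← h2] at h3
    · have h1 : (univ.filter fun i => c i = v).card = 0 := by omega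
      have h2 : (univ.filter fun i => b i = v).card = 1 := by omega
      rw [h1, h2, mul_zero, add_zero]
      exact Nat.coprime_one_left t
  have hw := weil t ht2 hdvd χ hχ hχt P R hPm hRm hcop
  rw [hPdeg, hRdeg] at hw
  have e1 : ∀ x : F, χ (P.eval x) * (starRingEnd ℂ) (χ (R.eval x)) =
      (∏ i, χ (x + b i)) * ∏ i, (starRingEnd ℂ) (χ (x + c i)) := by
    intro x
    rw [hP, hR, eval_prod, eval_prod, map_prod, map_prod, map_prod]
    simp
  rw [sum_congr rfl fun x _ => e1 x] at hw
  refine hw.trans (le_of_eq ?_)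
  push_cast
  ring

/-- the norm form case -/
theorem complete_norm {p : ℕ} [Fact p.Prime] (χ : DirichletCharacter ℂ p) (hχ : χ ≠ 1)
    (g : ZMod p) (hg : ∀ z : ZMod p, z ^ 2 ≠ g) (r : ℕ) (b c : Fin r → ZMod p)
    (huniq : UniqF b c) :
    ‖∑ x : ZMod p, ∑ z : ZMod p, (∏ i, χ ((x + b i) ^ 2 - g * z ^ 2)) *
      ∏ i, (starRingEnd ℂ) (χ ((x + c i) ^ 2 - g * z ^ 2))‖ ≤ (2 * r) * p := by
  classical
  have hF : Fact (∀ z : ZMod p, z ^ 2 ≠ g + 0 * z) := ⟨fun z => by simpa using hg z⟩
  let E := QuadraticAlgebra (ZMod p) g 0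
  let eq : E ≃ ZMod p × ZMod p := QuadraticAlgebra.equivProd g 0
  let _ : Fintype E := Fintype.ofEquiv _ eq.symm
  have hcard : Fintype.card E = p ^ 2 := by
    rw [Fintype.card_congr eq, Fintype.card_prod, ZMod.card, sq]
  have hψ : normChar (ZMod p) E χ ≠ 1 := normChar_ne_one (ZMod p) E χ hχ
  have hu : UniqF (fun i => algebraMap (ZMod p) E (b i)) (fun i => algebraMap (ZMod p) E (c i)) := by
    obtain ⟨v, hv⟩ := huniq
    refine ⟨algebraMap (ZMod p) E v, ?_⟩
    rw [← hv]
    have key : ∀ z : ZMod p, (algebraMap (ZMod p) E z = algebraMap (ZMod p) E v ↔ z = v) :=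
      fun z => (algebraMap (ZMod p) E).injective.eq_iff
    simp only [key]
  have h := complete_field (normChar (ZMod p) E χ) hψ r _ _ hu
  rw [hcard] at h
  have hs : Real.sqrt ((p ^ 2 : ℕ) : ℝ) = p := by
    push_cast
    exact Real.sqrt_sq (Nat.cast_nonneg _)
  rw [hs] at h
  have hnorm : ∀ (z : E) (v : ZMod p), normChar (ZMod p) E χ (z + algebraMap (ZMod p) E v) =
      χ ((z.re + v) ^ 2 - g * z.im ^ 2) := by
    intro z v
    rw [normChar_apply]
    congr 1
    rw [Algebra.norm_apply]
    have h1 := QuadraticAlgebra.det_toLinearMap_eq_norm (z + algebraMap (ZMod p) E v)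
    have h2 : (LinearMap.det ((Algebra.lmul (ZMod p) E) (z + algebraMap (ZMod p) E v))) =
      (DistribSMul.toLinearMap (ZMod p) E (z + algebraMap (ZMod p) E v)).det := by
      congr 1
    have a1 : (z + algebraMap (ZMod p) E v).re = z.re + v := rfl
    have a2 : (z + algebraMap (ZMod p) E v).im = z.im + 0 := rfl
    rw [h2, h1, QuadraticAlgebra.norm_def, a1, a2]
    ring
  simp only [hnorm] at h
  have e : ∑ x : E, (∏ i, χ ((x.re + b i) ^ 2 - g * x.im ^ 2)) *
      ∏ i, (starRingEnd ℂ) (χ ((x.re + c i) ^ 2 - g * x.im ^ 2))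
      = ∑ x : ZMod p, ∑ z : ZMod p, (∏ i, χ ((x + b i) ^ 2 - g * z ^ 2)) *
      ∏ i, (starRingEnd ℂ) (χ ((x + c i) ^ 2 - g * z ^ 2)) := by
    rw [← Fintype.sum_prod_type']
    exact (eq.symm.sum_comp (fun x : E => (∏ i, χ ((x.re + b i) ^ 2 - g * x.im ^ 2)) *
      ∏ i, (starRingEnd ℂ) (χ ((x.re + c i) ^ 2 - g * x.im ^ 2)))).symm
  rw [e] at h
  exact h

end Pool.Agent.H424.QP
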