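import Pool.Agent.H424.QP.Moment
import Pool.Graph.R_seed8.H510R2.Div

/-! Coincidences between the parameters of shifted squares. -/

set_option autoImplicit false

namespace Pool.Agent.H424.QP

open Finset

variable {p : ℕ} [Fact p.Prime]

/-- solutions of a linear congruence in a box -/
theorem line_count (N u v : ℕ) (hu : 0 < u) (hv : 0 < v) (hup : u < p) (hNp : N ≤ p)
    (huv : N * (u + v) ≤ p) (k : ZMod p) :
    (((range N ×ˢ range N).filter fun t =>
      (t.1 : ZMod p) * (v : ZMod p) = (t.2 : ZMod p) * (u : ZMod p) + k).card) ≤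
      N * Nat.gcd u v / u + 1 := by
  classical
  set S := (range N ×ˢ range N).filter fun t =>
      (t.1 : ZMod p) * (v : ZMod p) = (t.2 : ZMod p) * (u : ZMod p) + k with hS
  set g := Nat.gcd u v with hg
  have hg0 : 0 < g := Nat.gcd_pos_of_pos_left _ hu
  obtain ⟨u1, hu1⟩ : g ∣ u := Nat.gcd_dvd_left _ _
  obtain ⟨v1, hv1⟩ : g ∣ v := Nat.gcd_dvd_right _ _
  have hu10 : 0 < u1 := by
    rcases Nat.eq_zero_or_pos u1 with h | h
    · rw [h, mul_zero] at hu1
      omega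
    · exact h
  have hcop : Nat.Coprime u1 v1 := by
    have h1 := Nat.coprime_div_gcd_div_gcd (m := u) (n := v) (by rw [← hg]; exact hg0)
    rw [← hg] at h1
    rw [hu1, hv1, Nat.mul_div_cancel_left _ hg0, Nat.mul_div_cancel_left _ hg0] at h1
    exact h1
  have hppos : 0 < p := (Fact.out : p.Prime).pos
  -- differences
  have hdiff : ∀ t ∈ S, ∀ t' ∈ S, t.1 % u1 = t'.1 % u1 := by
    intro t ht t' ht'
    rw [hS, mem_filter, mem_product, mem_range, mem_range] at ht ht'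
    have h2 : (((((t'.1 : ℤ) - t.1) * v - ((t'.2 : ℤ) - t.2) * u : ℤ)) : ZMod p) = 0 := by
      push_cast
      linear_combination ht'.2 - ht.2
    rw [ZMod.intCast_zmod_eq_zero_iff_dvd] at h2
    have h3 : |((t'.1 : ℤ) - t.1) * v - ((t'.2 : ℤ) - t.2) * u| < p := by
      obtain ⟨⟨a1, a2⟩, -⟩ := ht
      obtain ⟨⟨b1, b2⟩, -⟩ := ht'
      have c1 : |((t'.1 : ℤ) - t.1)| < N := by rw [abs_lt]; constructor <;> omega
      have c2 : |((t'.2 : ℤ) - t.2)| < N := by rw [abs_lt]; constructor <;> omega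
      have hv' : (0 : ℤ) < v := by exact_mod_cast hv
      have hu' : (0 : ℤ) < u := by exact_mod_cast hu
      calc |((t'.1 : ℤ) - t.1) * v - ((t'.2 : ℤ) - t.2) * u|
          ≤ |((t'.1 : ℤ) - t.1) * v| + |((t'.2 : ℤ) - t.2) * u| := abs_sub _ _
        _ = |((t'.1 : ℤ) - t.1)| * v + |((t'.2 : ℤ) - t.2)| * u := by
            rw [abs_mul, abs_mul, abs_of_pos hv', abs_of_pos hu']
        _ < N * v + N * u := by nlinarith
        _ = ((N * (u + v) : ℕ) : ℤ) := by push_cast; ring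
        _ ≤ p := by exact_mod_cast huv
    have h4 := Int.eq_zero_of_abs_lt_dvd h2 h3
    have h5 : ((t'.1 : ℤ) - t.1) * v1 = ((t'.2 : ℤ) - t.2) * u1 := by
      have hg' : (g : ℤ) ≠ 0 := by exact_mod_cast hg0.ne'
      apply mul_left_cancel₀ hg'
      have e1 : (v : ℤ) = g * v1 := by exact_mod_cast hv1
      have e2 : (u : ℤ) = g * u1 := by exact_mod_cast hu1
      rw [e1, e2] at h4
      linear_combination h4
    have h6 : (u1 : ℤ) ∣ ((t'.1 : ℤ) - t.1) * v1 := ⟨(t'.2 : ℤ) - t.2, by rw [h5]; ring⟩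
    have h7 : (u1 : ℤ) ∣ ((t'.1 : ℤ) - t.1) :=
      (Int.isCoprime_iff_gcd_eq_one.2 (by exact_mod_cast hcop)).dvd_of_dvd_mul_right h6
    exact (Nat.modEq_iff_dvd.2 h7)
  have e : N * g / u = N / u1 := by
    rw [hu1, mul_comm N g, Nat.mul_div_mul_left _ _ hg0]
  rw [e, ← card_range (N / u1 + 1)]
  refine card_le_card_of_injOn (fun t => t.1 / u1) ?_ ?_
  · intro t ht
    have ht' := ht
    rw [hS, mem_coe, mem_filter, mem_product, mem_range, mem_range] at ht'
    rw [mem_coe, mem_range, Nat.lt_succ_iff]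
    exact Nat.div_le_div_right ht'.1.1.le
  · intro t ht t' ht' hh
    simp only at hh
    have h1 := hdiff t ht t' ht'
    have h2 : t.1 = t'.1 := by
      rw [← Nat.div_add_mod t.1 u1, ← Nat.div_add_mod t'.1 u1, hh, h1]
    rw [hS, mem_coe, mem_filter, mem_product, mem_range, mem_range] at ht ht'
    refine Prod.ext h2 ?_
    have h3 : (t.2 : ZMod p) * (u : ZMod p) = (t'.2 : ZMod p) * (u : ZMod p) := by
      have a1 := ht.2
      have a2 := ht'.2
      rw [h2] at a1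
      rw [a1] at a2
      exact add_right_cancel a2
    have hu0 : (u : ZMod p) ≠ 0 := by
      intro h
      rw [ZMod.natCast_eq_zero_iff] at h
      have := Nat.le_of_dvd hu h
      omega
    have h4 := mul_right_cancel₀ hu0 h3
    rw [ZMod.natCast_eq_natCast_iff'] at h4
    rw [Nat.mod_eq_of_lt (ht.1.2.trans_le hNp), Nat.mod_eq_of_lt (ht'.1.2.trans_le hNp)] at h4
    exact h4

/-- sum of greatest common divisors -/
theorem gcd_sum (U u T : ℕ) (hu : 0 < u) (hT : u.divisors.card ≤ T) :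
    ∑ v ∈ Ioc U (2 * U), Nat.gcd u v ≤ 2 * U * T := by
  classical
  have h1 : ∀ v ∈ Ioc U (2 * U), Nat.gcd u v ≤ ∑ d ∈ u.divisors, if d ∣ v then d else 0 := by
    intro v _
    have h2 : Nat.gcd u v ∈ u.divisors := Nat.mem_divisors.2 ⟨Nat.gcd_dvd_left _ _, hu.ne'⟩
    refine le_trans ?_ (Finset.single_le_sum (f := fun d => if d ∣ v then d else 0)
      (fun _ _ => Nat.zero_le _) h2)
    rw [if_pos (Nat.gcd_dvd_right _ _)]
  refine (Finset.sum_le_sum h1).trans ?_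
  rw [Finset.sum_comm]
  have h2 : ∀ d ∈ u.divisors, ∑ v ∈ Ioc U (2 * U), (if d ∣ v then d else 0) ≤ 2 * U := by
    intro d hd
    rw [← Finset.sum_filter, Finset.sum_const, smul_eq_mul]
    have h3 : ((Ioc U (2 * U)).filter fun v => d ∣ v).card ≤ 2 * U / d := by
      rw [← Nat.Ioc_filter_dvd_card_eq_div]
      refine card_le_card ?_
      intro v hv
      rw [mem_filter, mem_Ioc] at hv
      rw [mem_filter, mem_Ioc]
      exact ⟨⟨by omega, hv.1.2⟩, hv.2⟩
    calc _ ≤ (2 * U / d) * d := Nat.mul_le_mul_right _ h3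
      _ ≤ 2 * U := Nat.div_mul_le_self _ _
  calc _ ≤ ∑ _d ∈ u.divisors, 2 * U := Finset.sum_le_sum h2
    _ = u.divisors.card * (2 * U) := by rw [Finset.sum_const, smul_eq_mul]
    _ ≤ T * (2 * U) := Nat.mul_le_mul_right _ hT
    _ = 2 * U * T := by ring

/-- the parameter of the sum along the progression -/
noncomputable def par (x : ZMod p → ZMod p) (t : ZMod p × ℕ × ℕ) : ZMod p × ZMod p :=
  (((t.2.2 : ZMod p) + x t.1) / (t.2.1 : ZMod p), t.1 / (t.2.1 : ZMod p) ^ 2)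

/-- the number of coincidences -/
theorem energy_count (U N T : ℕ) (hU : 1 ≤ U) (hN1 : 1 ≤ N) (hUN : 4 * (N * U) ≤ p)
    (hT : ∀ u, 1 ≤ u → u ≤ 2 * U → u.divisors.card ≤ T) (s : Finset (ZMod p))
    (x : ZMod p → ZMod p) :
    ((((s ×ˢ Ioc U (2 * U) ×ˢ range N) ×ˢ (s ×ˢ Ioc U (2 * U) ×ˢ range N)).filter fun t =>
      par x t.1 = par x t.2).card : ℝ) ≤ s.card * ((U : ℝ) ^ 2 + 2 * N * U * T) := by
  classical
  have hppos : 0 < p := (Fact.out : p.Prime).pos
  have hNp : N ≤ p := by nlinarith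
  have hUp : 2 * U < p := by
    have h1 : 4 * U ≤ 4 * (N * U) := by nlinarith
    omega
  have hu0 : ∀ u ∈ Ioc U (2 * U), ((u : ℕ) : ZMod p) ≠ 0 := by
    intro u hu h
    rw [mem_Ioc] at hu
    rw [ZMod.natCast_eq_zero_iff] at h
    have := Nat.le_of_dvd (by omega) h
    omega
  set I := Ioc U (2 * U) with hI
  set X := ((s ×ˢ I ×ˢ range N) ×ˢ (s ×ˢ I ×ˢ range N)).filter fun t =>
      par x t.1 = par x t.2 with hX
  -- the projection to `(D, u, u')`
  have h1 : X.card = ∑ r ∈ s ×ˢ I ×ˢ I, (X.filter fun t =>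
      (t.1.1, t.1.2.1, t.2.2.1) = r).card := by
    refine card_eq_sum_card_fiberwise ?_
    intro t ht
    rw [hX, mem_coe, mem_filter, mem_product, mem_product, mem_product, mem_product,
      mem_product] at ht
    rw [mem_coe, mem_product, mem_product]
    exact ⟨ht.1.1.1, ht.1.1.2.1, ht.1.2.2.1⟩
  have h2 : ∀ r ∈ s ×ˢ I ×ˢ I, (X.filter fun t => (t.1.1, t.1.2.1, t.2.2.1) = r).card ≤
      N * Nat.gcd r.2.1 r.2.2 / r.2.1 + 1 := by
    rintro ⟨D, u, v⟩ hr
    rw [mem_product, mem_product] at hr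
    obtain ⟨hD, hu, hv⟩ := hr
    simp only at hD hu hv
    have hu' := hu0 u hu
    have hv' := hu0 v hv
    rw [hI, mem_Ioc] at hu hv
    set D' := D / (u : ZMod p) ^ 2 * (v : ZMod p) ^ 2 with hD'
    have h3 := line_count N u v (by omega) (by omega) (by omega) hNp (by nlinarith)
      (x D' * u - x D * v)
    refine le_trans ?_ h3
    refine card_le_card_of_injOn (fun t => (t.1.2.2, t.2.2.2)) ?_ ?_
    · rintro ⟨⟨D1, u1, n⟩, ⟨D2, u2, m⟩⟩ ht
      rw [mem_coe, mem_filter, hX, mem_filter, mem_product, mem_product, mem_product, mem_product,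
        mem_product] at ht
      obtain ⟨⟨⟨⟨-, -, hn⟩, ⟨-, -, hm⟩⟩, heq⟩, hr⟩ := ht
      simp only [Prod.mk.injEq] at hr
      obtain ⟨rfl, rfl, rfl⟩ := hr
      simp only at hn hm
      rw [mem_coe, mem_filter, mem_product]
      refine ⟨⟨hn, hm⟩, ?_⟩
      unfold par at heq
      simp only [Prod.mk.injEq] at heq
      obtain ⟨e1, e2⟩ := heq
      have e3 : D2 = D' := by
        rw [hD', e2]
        field_simp
      rw [← e3]
      simp only
      rw [div_eq_div_iff hu' hv'] at e1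
      linear_combination e1
    · rintro ⟨⟨D1, u1, n⟩, ⟨D2, u2, m⟩⟩ ht ⟨⟨D3, u3, n'⟩, ⟨D4, u4, m'⟩⟩ ht' hh
      rw [mem_coe, mem_filter, hX, mem_filter] at ht ht'
      obtain ⟨⟨-, heq⟩, hr⟩ := ht
      obtain ⟨⟨-, heq'⟩, hr'⟩ := ht'
      simp only [Prod.mk.injEq] at hr hr' hh
      obtain ⟨rfl, rfl, rfl⟩ := hr
      obtain ⟨rfl, rfl, rfl⟩ := hr'
      obtain ⟨rfl, rfl⟩ := hh
      unfold par at heq heq'
      simp only [Prod.mk.injEq] at heq heq'
      have e3 : D2 = D4 := by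
        have := heq.2.symm.trans heq'.2
        field_simp at this
        exact this
      rw [e3]
  have h3 : (X.card : ℝ) ≤ ∑ r ∈ s ×ˢ I ×ˢ I, ((N : ℝ) * Nat.gcd r.2.1 r.2.2 / U + 1) := by
    rw [h1]
    push_cast
    refine Finset.sum_le_sum fun r hr => ?_
    have h4 : ((X.filter fun t => (t.1.1, t.1.2.1, t.2.2.1) = r).card : ℝ) ≤
        ((N * Nat.gcd r.2.1 r.2.2 / r.2.1 + 1 : ℕ) : ℝ) := by exact_mod_cast h2 r hr
    refine h4.trans ?_
    push_cast
    have h5 : ((N * Nat.gcd r.2.1 r.2.2 / r.2.1 : ℕ) : ℝ) ≤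
        ((N * Nat.gcd r.2.1 r.2.2 : ℕ) : ℝ) / (r.2.1 : ℝ) := Nat.cast_div_le
    rw [mem_product, mem_product, hI, mem_Ioc] at hr
    have h6 : (U : ℝ) ≤ r.2.1 := by exact_mod_cast hr.2.1.1.le
    have hU0 : (0 : ℝ) < U := by exact_mod_cast hU
    have h7 : ((N * Nat.gcd r.2.1 r.2.2 : ℕ) : ℝ) / (r.2.1 : ℝ) ≤
        ((N * Nat.gcd r.2.1 r.2.2 : ℕ) : ℝ) / (U : ℝ) :=
      div_le_div_of_nonneg_left (Nat.cast_nonneg _) hU0 h6
    push_cast at h7 h5
    linarith
  refine h3.trans ?_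
  rw [Finset.sum_product]
  have h4 : ∀ D ∈ s, ∑ r ∈ I ×ˢ I, ((N : ℝ) * Nat.gcd r.1 r.2 / U + 1) ≤
      (U : ℝ) ^ 2 + 2 * N * U * T := by
    intro D _
    have hU0 : (0 : ℝ) < U := by exact_mod_cast hU
    have hIc : I.card = U := by
      rw [hI, Nat.card_Ioc]
      omega
    rw [Finset.sum_product]
    have h5 : ∀ u ∈ I, ∑ v ∈ I, ((N : ℝ) * Nat.gcd u v / U + 1) ≤ 2 * N * T + U := by
      intro u hu
      rw [Finset.sum_add_distrib, Finset.sum_const, hIc, nsmul_eq_mul, mul_one]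
      have h6 : ∑ v ∈ I, (N : ℝ) * Nat.gcd u v / U = (N : ℝ) / U * ((∑ v ∈ I, Nat.gcd u v : ℕ) : ℝ) := by
        push_cast
        rw [Finset.mul_sum]
        exact Finset.sum_congr rfl fun v _ => by ring
      rw [h6]
      rw [hI, mem_Ioc] at hu
      have h7 : ((∑ v ∈ I, Nat.gcd u v : ℕ) : ℝ) ≤ ((2 * U * T : ℕ) : ℝ) := by
        exact_mod_cast gcd_sum U u T (by omega) (hT u (by omega) hu.2)
      have h8 : (N : ℝ) / U * ((∑ v ∈ I, Nat.gcd u v : ℕ) : ℝ) ≤ (N : ℝ) / U * ((2 * U * T : ℕ) : ℝ) :=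
        mul_le_mul_of_nonneg_left h7 (by positivity)
      have h9 : (N : ℝ) / U * ((2 * U * T : ℕ) : ℝ) = 2 * N * T := by
        push_cast
        field_simp
      linarith
    refine (Finset.sum_le_sum h5).trans ?_
    rw [Finset.sum_const, hIc, nsmul_eq_mul]
    apply le_of_eq
    ring
  calc ∑ D ∈ s, ∑ r ∈ I ×ˢ I, ((N : ℝ) * Nat.gcd r.1 r.2 / U + 1)
      ≤ ∑ _D ∈ s, ((U : ℝ) ^ 2 + 2 * N * U * T) := Finset.sum_le_sum h4
    _ = _ := by rw [Finset.sum_const, nsmul_eq_mul]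

end Pool.Agent.H424.QP
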