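import Pool.Agent.H424.QP.Final

/-! Sets made of quadratic progressions. -/

set_option autoImplicit false

namespace Pool.Agent.H424.QP

open Finset Pool.Agent.W27.BG

/-- `A` is evenly covered by quadratic progressions with at least `N` terms: there are finitely
many progressions `α i * n ^ 2 + β i * n + γ i`, `0 ≤ n < M i`, with `α i ≠ 0` and `M i ≥ N`, and
`m ≥ 1`, such that every element of `A` is the value of exactly `m` pairs `(i, n)` and no other
residue is a value. -/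
def QuadCovered {p : ℕ} (N : ℕ) (A : Finset (ZMod p)) : Prop :=
  ∃ (m : ℕ) (ι : Type) (s : Finset ι) (α β γ : ι → ZMod p) (M : ι → ℕ), 0 < m ∧
    (∀ i ∈ s, α i ≠ 0 ∧ N ≤ M i) ∧
    ∀ a : ZMod p, ∑ i ∈ s, ((range (M i)).filter fun n : ℕ =>
      α i * (n : ZMod p) ^ 2 + β i * n + γ i = a).card = if a ∈ A then m else 0

theorem cover_sum {p : ℕ} [NeZero p] {m : ℕ} {ι : Type} (s : Finset ι) (q : ι → ℕ → ZMod p)
    (M : ι → ℕ) (A : Finset (ZMod p))
    (h : ∀ a : ZMod p, ∑ i ∈ s, ((range (M i)).filter fun n : ℕ => q i n = a).card =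
      if a ∈ A then m else 0) (f : ZMod p → ℂ) :
    (m : ℂ) * ∑ a ∈ A, f a = ∑ i ∈ s, ∑ n ∈ range (M i), f (q i n) := by
  classical
  have h1 : ∀ i ∈ s, ∑ n ∈ range (M i), f (q i n) =
      ∑ a : ZMod p, (((range (M i)).filter fun n : ℕ => q i n = a).card : ℂ) * f a := by
    intro i _
    rw [← Finset.sum_fiberwise_of_maps_to (s := range (M i)) (t := (univ : Finset (ZMod p)))
      (g := fun n => q i n) (fun n _ => mem_univ _)]
    refine Finset.sum_congr rfl fun a _ => ?_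
    have h2 : ∀ n ∈ (range (M i)).filter (fun n => q i n = a), f (q i n) = f a := by
      intro n hn
      rw [(mem_filter.1 hn).2]
    rw [Finset.sum_congr rfl h2, Finset.sum_const, nsmul_eq_mul]
  rw [Finset.sum_congr rfl h1, Finset.sum_comm, Finset.mul_sum]
  have h3 : ∀ a : ZMod p, ∑ i ∈ s, (((range (M i)).filter fun n : ℕ => q i n = a).card : ℂ) * f a =
      if a ∈ A then (m : ℂ) * f a else 0 := by
    intro a
    rw [← Finset.sum_mul]
    have h4 := congrArg (fun t : ℕ => (t : ℂ)) (h a)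
    push_cast at h4
    rw [h4]
    split_ifs <;> simp
  rw [Finset.sum_congr rfl fun a _ => h3 a, ← Finset.sum_filter]
  congr 1
  ext a
  simp

theorem cover_card {p : ℕ} [NeZero p] {m : ℕ} {ι : Type} (s : Finset ι) (q : ι → ℕ → ZMod p)
    (M : ι → ℕ) (A : Finset (ZMod p))
    (h : ∀ a : ZMod p, ∑ i ∈ s, ((range (M i)).filter fun n : ℕ => q i n = a).card =
      if a ∈ A then m else 0) :
    (m : ℝ) * A.card = ∑ i ∈ s, (M i : ℝ) := by
  have h1 := cover_sum s q M A h (fun _ => 1)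
  simp only [Finset.sum_const, card_range, nsmul_eq_mul, mul_one] at h1
  exact_mod_cast h1

/-- power saving for sets evenly covered by quadratic progressions, against arbitrary sets -/
theorem covered_set (ε : ℝ) (hε : 0 < ε) :
    ∃ η : ℝ, 0 < η ∧ ∃ P : ℕ, ∀ (p : ℕ) [Fact p.Prime], P ≤ p →
      ∀ (χ : DirichletCharacter ℂ p), χ ≠ 1 → ∀ (N : ℕ) (A B : Finset (ZMod p)),
        QuadCovered N A →
        (p : ℝ) ^ ε ≤ B.card → (p : ℝ) ^ (1 + ε) ≤ B.card * (N : ℝ) ^ 2 →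
          ∑ b ∈ B, ‖∑ a ∈ A, χ (a + b)‖ ≤ (p : ℝ) ^ (-η) * (A.card * B.card) := by
  classical
  obtain ⟨η, hη, P, hP⟩ := quad_set ε hε
  refine ⟨η, hη, P, ?_⟩
  intro p _ hp χ hχ N A B hA hB hBN
  have : NeZero p := ⟨(Fact.out : p.Prime).ne_zero⟩
  obtain ⟨m, ι, s, α, β, γ, M, hm, hs, hcov⟩ := hA
  have hm0 : (0 : ℝ) < m := by exact_mod_cast hm
  have h1 : ∀ b : ZMod p, (m : ℝ) * ‖∑ a ∈ A, χ (a + b)‖ ≤
      ∑ i ∈ s, ‖∑ n ∈ range (M i), χ (α i * (n : ZMod p) ^ 2 + β i * n + γ i + b)‖ := by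
    intro b
    have h2 := cover_sum s _ M A hcov (fun a => χ (a + b))
    have h3 : (m : ℝ) * ‖∑ a ∈ A, χ (a + b)‖ = ‖(m : ℂ) * ∑ a ∈ A, χ (a + b)‖ := by
      rw [norm_mul, Complex.norm_natCast]
    rw [h3, h2]
    exact norm_sum_le _ _
  have h2 : (m : ℝ) * ∑ b ∈ B, ‖∑ a ∈ A, χ (a + b)‖ ≤
      (m : ℝ) * ((p : ℝ) ^ (-η) * (A.card * B.card)) := by
    calc (m : ℝ) * ∑ b ∈ B, ‖∑ a ∈ A, χ (a + b)‖
        = ∑ b ∈ B, (m : ℝ) * ‖∑ a ∈ A, χ (a + b)‖ := Finset.mul_sum _ _ _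
      _ ≤ ∑ b ∈ B, ∑ i ∈ s,
          ‖∑ n ∈ range (M i), χ (α i * (n : ZMod p) ^ 2 + β i * n + γ i + b)‖ :=
          Finset.sum_le_sum fun b _ => h1 b
      _ = ∑ i ∈ s, ∑ b ∈ B,
          ‖∑ n ∈ range (M i), χ (α i * (n : ZMod p) ^ 2 + β i * n + γ i + b)‖ := Finset.sum_comm
      _ ≤ ∑ i ∈ s, (p : ℝ) ^ (-η) * (B.card * M i) := by
          refine Finset.sum_le_sum fun i hi => ?_
          refine hP p hp χ hχ B (M i) hB (hBN.trans ?_) _ _ _ (hs i hi).1
          refine mul_le_mul_of_nonneg_left ?_ (Nat.cast_nonneg _)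
          refine pow_le_pow_left₀ (Nat.cast_nonneg _) ?_ 2
          exact_mod_cast (hs i hi).2
      _ = (p : ℝ) ^ (-η) * (B.card * ∑ i ∈ s, (M i : ℝ)) := by
          rw [Finset.mul_sum, Finset.mul_sum]
      _ = (m : ℝ) * ((p : ℝ) ^ (-η) * (A.card * B.card)) := by
          rw [← cover_card s _ M A hcov]
          ring
  exact le_of_mul_le_mul_left h2 hm0

end Pool.Agent.H424.QP
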