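import Pool.Agent.H424.QP.Pow

/-! Power saving for quadratic progressions against arbitrary sets. -/

set_option autoImplicit false

namespace Pool.Agent.H424.QP

open Finset Pool.Agent.W27.BG

/-- a sum over a long range in blocks -/
theorem blocks (F : ℕ → ℂ) (M q : ℕ) :
    ∑ n ∈ range (q * M), F n = ∑ j ∈ range q, ∑ n ∈ range M, F (j * M + n) := by
  induction q with
  | zero => simp
  | succ q ih =>
    rw [Finset.sum_range_succ, ← ih, Nat.succ_mul, Finset.sum_range_add]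

/-- all lengths -/
theorem quad_all (ε : ℝ) (hε : 0 < ε) :
    ∃ η : ℝ, 0 < η ∧ ∃ P : ℕ, ∀ (p : ℕ) [Fact p.Prime], P ≤ p →
      ∀ (χ : DirichletCharacter ℂ p), χ ≠ 1 → ∀ (s : Finset (ZMod p)) (x : ZMod p → ZMod p) (N : ℕ),
        (p : ℝ) ^ ε ≤ s.card → (p : ℝ) ^ (1 + ε) ≤ s.card * (N : ℝ) ^ 2 →
          ∑ D ∈ s, ‖∑ n ∈ range N, χ (((n : ZMod p) + x D) ^ 2 - D)‖ ≤
            (p : ℝ) ^ (-η) * (s.card * N) := by
  classical
  obtain ⟨ε1, hε1def⟩ : ∃ ε1 : ℝ, ε1 = min ε 1 := ⟨_, rfl⟩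
  have hε1 : 0 < ε1 := by rw [hε1def]; exact lt_min hε one_pos
  have hε1ε : ε1 ≤ ε := by rw [hε1def]; exact min_le_left _ _
  have hε11 : ε1 ≤ 1 := by rw [hε1def]; exact min_le_right _ _
  obtain ⟨η, hη, P, hP⟩ := quad_short (ε1 / 2) (by positivity)
  obtain ⟨P1, hP1⟩ := large_rpow (ε1 / 4) 4 (by positivity)
  obtain ⟨P2, hP2⟩ := large_rpow (min η (ε1 / 8) / 2) 2 (by positivity)
  refine ⟨min η (ε1 / 8) / 2, by positivity, P + P1 + P2 + 3, ?_⟩
  intro p _ hp χ hχ s x N hs hsN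
  have hP1' := hP1 p (by omega)
  have hP2' := hP2 p (by omega)
  have hp1 : (1 : ℝ) ≤ p := by exact_mod_cast (by omega : 1 ≤ p)
  have hp0 : (0 : ℝ) < p := by linarith
  have hs0 : (0 : ℝ) < s.card := lt_of_lt_of_le (by positivity) hs
  set η' := min η (ε1 / 8) / 2 with hη'
  have hη'0 : 0 < η' := by positivity
  have hη'1 : 2 * η' ≤ η := by rw [hη']; linarith [min_le_left η (ε1 / 8)]
  have hη'2 : 2 * η' ≤ ε1 / 8 := by rw [hη']; linarith [min_le_right η (ε1 / 8)]
  by_cases hNp : (N : ℝ) ^ 2 ≤ p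
  · have h1 := hP p (by omega) χ hχ s x N hNp (by
      refine le_trans ?_ hsN
      exact Real.rpow_le_rpow_of_exponent_le hp1 (by linarith))
    refine h1.trans (mul_le_mul_of_nonneg_right ?_ (by positivity))
    exact Real.rpow_le_rpow_of_exponent_le hp1 (by linarith)
  · rw [not_le] at hNp
    obtain ⟨M, hM⟩ : ∃ M : ℕ, M = ⌊(p : ℝ) ^ (1 / 2 - ε1 / 8)⌋₊ := ⟨_, rfl⟩
    have hMle : (M : ℝ) ≤ (p : ℝ) ^ (1 / 2 - ε1 / 8) := by
      rw [hM]; exact Nat.floor_le (by positivity)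
    have hMlt : (p : ℝ) ^ (1 / 2 - ε1 / 8) < M + 1 := by rw [hM]; exact Nat.lt_floor_add_one _
    have h4 : (4 : ℝ) < (p : ℝ) ^ (1 / 2 - ε1 / 8) := by
      refine hP1'.trans_le ?_
      exact Real.rpow_le_rpow_of_exponent_le hp1 (by linarith)
    have hM1 : (1 : ℝ) < M := by linarith
    have hM0 : 0 < M := by
      have : (0 : ℝ) < M := by linarith
      exact_mod_cast this
    have hMhalf : (p : ℝ) ^ (1 / 2 - ε1 / 8) ≤ 2 * M := by linarith
    have hsq : ((p : ℝ) ^ (1 / 2 - ε1 / 8)) ^ 2 = (p : ℝ) ^ (1 - ε1 / 4) := by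
      rw [← Real.rpow_natCast, ← Real.rpow_mul hp0.le]
      congr 1
      push_cast
      ring
    have hM2 : (M : ℝ) ^ 2 ≤ p := by
      calc (M : ℝ) ^ 2 ≤ ((p : ℝ) ^ (1 / 2 - ε1 / 8)) ^ 2 := pow_le_pow_left₀ (by positivity) hMle 2
        _ = (p : ℝ) ^ (1 - ε1 / 4) := hsq
        _ ≤ (p : ℝ) ^ (1 : ℝ) := Real.rpow_le_rpow_of_exponent_le hp1 (by linarith)
        _ = p := Real.rpow_one _
    have hsM : (p : ℝ) ^ (1 + ε1 / 2) ≤ s.card * (M : ℝ) ^ 2 := by
      have h5 : (p : ℝ) ^ (1 - ε1 / 4) ≤ 4 * (M : ℝ) ^ 2 := by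
        rw [← hsq]
        calc ((p : ℝ) ^ (1 / 2 - ε1 / 8)) ^ 2 ≤ (2 * (M : ℝ)) ^ 2 :=
              pow_le_pow_left₀ (by positivity) hMhalf 2
          _ = 4 * (M : ℝ) ^ 2 := by ring
      have h6 : (p : ℝ) ^ (1 + ε1 / 2) * 4 ≤ (p : ℝ) ^ ε1 * (p : ℝ) ^ (1 - ε1 / 4) := by
        calc (p : ℝ) ^ (1 + ε1 / 2) * 4 ≤ (p : ℝ) ^ (1 + ε1 / 2) * (p : ℝ) ^ (ε1 / 4) :=
              mul_le_mul_of_nonneg_left hP1'.le (by positivity)
          _ = (p : ℝ) ^ ε1 * (p : ℝ) ^ (1 - ε1 / 4) := by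
              rw [← Real.rpow_add hp0, ← Real.rpow_add hp0]
              congr 1
              ring
      have h7 : (p : ℝ) ^ ε1 * (p : ℝ) ^ (1 - ε1 / 4) ≤ s.card * (4 * (M : ℝ) ^ 2) := by
        refine mul_le_mul ?_ h5 (by positivity) (by positivity)
        refine le_trans ?_ hs
        exact Real.rpow_le_rpow_of_exponent_le hp1 hε1ε
      nlinarith
    obtain ⟨q, hq⟩ : ∃ q : ℕ, q = N / M := ⟨_, rfl⟩
    have hqM : q * M ≤ N := by rw [hq]; exact Nat.div_mul_le_self _ _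
    have hrem : N < q * M + M := by
      rw [hq]
      have := Nat.lt_div_mul_add (a := N) hM0
      exact this
    have h8 : ∀ D ∈ s, ‖∑ n ∈ range N, χ (((n : ZMod p) + x D) ^ 2 - D)‖ ≤
        ∑ j ∈ range q, ‖∑ n ∈ range M, χ (((n : ZMod p) + ((j * M : ℕ) + x D)) ^ 2 - D)‖ + M := by
      intro D _
      have e1 : N = q * M + (N - q * M) := by omega
      rw [e1, Finset.sum_range_add, blocks]
      refine (norm_add_le _ _).trans (add_le_add ?_ ?_)
      · refine (norm_sum_le _ _).trans (Finset.sum_le_sum fun j _ => le_of_eq ?_)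
        congr 1
        refine Finset.sum_congr rfl fun n _ => ?_
        congr 1
        push_cast
        ring
      · refine (norm_sum_le _ _).trans ?_
        have h9 : ∑ n ∈ range (N - q * M), ‖χ ((((q * M + n : ℕ) : ZMod p) + x D) ^ 2 - D)‖ ≤
            ∑ _n ∈ range (N - q * M), (1 : ℝ) :=
          Finset.sum_le_sum fun n _ => DirichletCharacter.norm_le_one χ _
        refine h9.trans ?_
        rw [Finset.sum_const, card_range, nsmul_eq_mul, mul_one]
        exact_mod_cast (by omega : N - q * M ≤ M)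
    have h9 : ∀ j ∈ range q, ∑ D ∈ s,
        ‖∑ n ∈ range M, χ (((n : ZMod p) + ((j * M : ℕ) + x D)) ^ 2 - D)‖ ≤
          (p : ℝ) ^ (-η) * (s.card * M) := by
      intro j _
      exact hP p (by omega) χ hχ s (fun D => ((j * M : ℕ) : ZMod p) + x D) M hM2 hsM
    calc ∑ D ∈ s, ‖∑ n ∈ range N, χ (((n : ZMod p) + x D) ^ 2 - D)‖
        ≤ ∑ D ∈ s, (∑ j ∈ range q,
            ‖∑ n ∈ range M, χ (((n : ZMod p) + ((j * M : ℕ) + x D)) ^ 2 - D)‖ + M) :=
          Finset.sum_le_sum h8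
      _ = ∑ j ∈ range q, ∑ D ∈ s,
            ‖∑ n ∈ range M, χ (((n : ZMod p) + ((j * M : ℕ) + x D)) ^ 2 - D)‖ + s.card * M := by
          rw [Finset.sum_add_distrib, Finset.sum_comm, Finset.sum_const, nsmul_eq_mul]
      _ ≤ ∑ _j ∈ range q, (p : ℝ) ^ (-η) * (s.card * M) + s.card * M :=
          add_le_add (Finset.sum_le_sum h9) le_rfl
      _ = (p : ℝ) ^ (-η) * (s.card * ((q * M : ℕ) : ℝ)) + s.card * M := by
          rw [Finset.sum_const, card_range, nsmul_eq_mul]
          push_cast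
          ring
      _ ≤ (p : ℝ) ^ (-(2 * η')) * (s.card * N) + (p : ℝ) ^ (-(2 * η')) * (s.card * N) := by
          refine add_le_add ?_ ?_
          · refine mul_le_mul ?_ ?_ (by positivity) (by positivity)
            · exact Real.rpow_le_rpow_of_exponent_le hp1 (by linarith)
            · exact mul_le_mul_of_nonneg_left (by exact_mod_cast hqM) hs0.le
          · have h10 : (M : ℝ) ≤ (p : ℝ) ^ (-(2 * η')) * N := by
              have h11 : (p : ℝ) ^ (1 / 2 : ℝ) ≤ N := by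
                rw [← Real.sqrt_eq_rpow]
                exact (Real.sqrt_lt' (by
                  have : (0 : ℝ) < (N : ℝ) ^ 2 := lt_of_lt_of_le hp0 hNp.le
                  have h0 : (0 : ℝ) ≤ N := Nat.cast_nonneg _
                  rcases h0.eq_or_lt with h | h
                  · rw [← h] at this
                    norm_num at this
                  · exact h)).2 hNp |>.le
              calc (M : ℝ) ≤ (p : ℝ) ^ (1 / 2 - ε1 / 8) := hMle
                _ ≤ (p : ℝ) ^ (-(2 * η') + 1 / 2) :=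
                    Real.rpow_le_rpow_of_exponent_le hp1 (by linarith)
                _ = (p : ℝ) ^ (-(2 * η')) * (p : ℝ) ^ (1 / 2 : ℝ) := Real.rpow_add hp0 _ _
                _ ≤ _ := mul_le_mul_of_nonneg_left h11 (by positivity)
            calc (s.card : ℝ) * M ≤ s.card * ((p : ℝ) ^ (-(2 * η')) * N) :=
                  mul_le_mul_of_nonneg_left h10 hs0.le
              _ = _ := by ring
      _ = (2 * (p : ℝ) ^ (-(2 * η'))) * (s.card * N) := by ring
      _ ≤ (p : ℝ) ^ (-η') * (s.card * N) := by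
          refine mul_le_mul_of_nonneg_right ?_ (by positivity)
          have e3 : (p : ℝ) ^ (-η') = (p : ℝ) ^ η' * (p : ℝ) ^ (-(2 * η')) := by
            rw [← Real.rpow_add hp0]
            congr 1
            ring
          rw [e3]
          exact mul_le_mul_of_nonneg_right hP2'.le (by positivity)

/-- quadratic progressions against arbitrary sets -/
theorem quad_set (ε : ℝ) (hε : 0 < ε) :
    ∃ η : ℝ, 0 < η ∧ ∃ P : ℕ, ∀ (p : ℕ) [Fact p.Prime], P ≤ p →
      ∀ (χ : DirichletCharacter ℂ p), χ ≠ 1 → ∀ (B : Finset (ZMod p)) (N : ℕ),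
        (p : ℝ) ^ ε ≤ B.card → (p : ℝ) ^ (1 + ε) ≤ B.card * (N : ℝ) ^ 2 →
        ∀ a b c : ZMod p, a ≠ 0 →
          ∑ y ∈ B, ‖∑ n ∈ range N, χ (a * (n : ZMod p) ^ 2 + b * n + c + y)‖ ≤
            (p : ℝ) ^ (-η) * (B.card * N) := by
  classical
  obtain ⟨η, hη, P, hP⟩ := quad_all ε hε
  refine ⟨η, hη, P + 3, ?_⟩
  intro p _ hp χ hχ B N hB hBN a b c ha
  have h2 : (2 : ZMod p) ≠ 0 := by
    have hp2 : p ≠ 2 := by omega
    apply Ring.two_ne_zero
    rw [ZMod.ringChar_zmod_n]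
    exact hp2
  let f : ZMod p → ZMod p := fun y => (b / (2 * a)) ^ 2 - (c + y) / a
  have hf : Function.Injective f := by
    intro y y' h
    simp only [f] at h
    have h1 : (c + y) / a = (c + y') / a := by linear_combination -h
    rw [div_left_inj' ha] at h1
    exact add_left_cancel h1
  have h1 := hP p (by omega) χ hχ (B.image f) (fun _ => b / (2 * a)) N
    (by rw [card_image_of_injective _ hf]; exact hB)
    (by rw [card_image_of_injective _ hf]; exact hBN)
  rw [card_image_of_injective _ hf, sum_image fun _ _ _ _ h => hf h] at h1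
  refine le_trans (Finset.sum_le_sum fun y _ => ?_) h1
  have e : ∀ n : ℕ, χ (a * (n : ZMod p) ^ 2 + b * n + c + y) =
      χ a * χ (((n : ZMod p) + b / (2 * a)) ^ 2 - f y) := by
    intro n
    rw [← map_mul]
    congr 1
    simp only [f]
    field_simp
    ring
  simp only [e]
  rw [← Finset.mul_sum, norm_mul]
  exact mul_le_of_le_one_left (norm_nonneg _) (DirichletCharacter.norm_le_one χ _)

end Pool.Agent.H424.QP
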