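import Pool.Agent.H424.QP.Complete

/-! High moments of character sums along shifted squares. -/

set_option autoImplicit false

namespace Pool.Agent.H424.QP

open Finset Pool.Agent.H471R4.BW Pool.Agent.H435R3.Paley Pool.Agent.W27.BG

variable {p : ℕ} [Fact p.Prime]

/-- sums over all residues as sums over squares and over multiples of squares by a nonsquare -/
theorem sum_squares (hp2 : p ≠ 2) (g : ZMod p) (hg : ¬ IsSquare g) (F : ZMod p → ℂ) :
    2 * ∑ y : ZMod p, F y = ∑ z : ZMod p, F (z ^ 2) + ∑ z : ZMod p, F (g * z ^ 2) := by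
  classical
  have hch : ringChar (ZMod p) ≠ 2 := by
    rw [ZMod.ringChar_zmod_n]
    exact hp2
  have hg0 : g ≠ 0 := by
    rintro rfl
    exact hg ⟨0, by simp⟩
  have h1 : ∀ c : ZMod p, c ≠ 0 → ∑ z : ZMod p, F (c * z ^ 2) =
      ∑ y : ZMod p, ((univ.filter fun z : ZMod p => z ^ 2 = y / c).card : ℂ) * F y := by
    intro c hc
    have h2 : ∑ z : ZMod p, F (c * z ^ 2) =
        ∑ y : ZMod p, ∑ z ∈ univ.filter (fun z : ZMod p => c * z ^ 2 = y), F (c * z ^ 2) :=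
      (Finset.sum_fiberwise_of_maps_to (fun z _ => Finset.mem_univ (c * z ^ 2)) _).symm
    rw [h2]
    refine Finset.sum_congr rfl fun y _ => ?_
    have h3 : ∀ z ∈ univ.filter (fun z : ZMod p => c * z ^ 2 = y), F (c * z ^ 2) = F y := by
      intro z hz
      rw [Finset.mem_filter] at hz
      rw [hz.2]
    rw [Finset.sum_congr rfl h3, Finset.sum_const, nsmul_eq_mul]
    congr 3
    ext z
    simp only [Finset.mem_filter, Finset.mem_univ, true_and]
    constructor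
    · intro h
      rw [← h]
      field_simp
    · intro h
      rw [h]
      field_simp
  have h2 := h1 1 one_ne_zero
  have h3 := h1 g hg0
  simp only [one_mul, div_one] at h2
  rw [h2, h3, ← Finset.sum_add_distrib, Finset.mul_sum]
  refine Finset.sum_congr rfl fun y _ => ?_
  rw [← add_mul]
  congr 1
  have h4 : ∀ a : ZMod p, (((univ.filter fun z : ZMod p => z ^ 2 = a).card : ℤ)) =
      quadraticChar (ZMod p) a + 1 := by
    intro a
    rw [← quadraticChar_card_sqrts hch a]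
    congr 2
    ext z
    simp
  have h5 : quadraticChar (ZMod p) (y / g) = - quadraticChar (ZMod p) y := by
    have h6 : quadraticChar (ZMod p) g = -1 := quadraticChar_neg_one_iff_not_isSquare.2 hg
    have h7 : quadraticChar (ZMod p) (y / g) * quadraticChar (ZMod p) g
        = quadraticChar (ZMod p) y := by
      rw [← map_mul, div_mul_cancel₀ _ hg0]
    rw [h6] at h7
    linarith
  have h6 : (((univ.filter fun z : ZMod p => z ^ 2 = y).card : ℤ)) +
      ((univ.filter fun z : ZMod p => z ^ 2 = y / g).card : ℤ) = 2 := by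
    rw [h4, h4, h5]
    ring
  exact_mod_cast h6.symm

/-- the product over a pair of tuples -/
noncomputable def qterm (χ : DirichletCharacter ℂ p) (r n : ℕ) (w : Fin n → ZMod p)
    (b c : Fin r → Fin n) (x y : ZMod p) : ℂ :=
  (∏ i, χ ((x + w (b i)) ^ 2 - y)) * ∏ i, (starRingEnd ℂ) (χ ((x + w (c i)) ^ 2 - y))

theorem qterm_norm_le (χ : DirichletCharacter ℂ p) (r n : ℕ) (w : Fin n → ZMod p)
    (b c : Fin r → Fin n) (x y : ZMod p) : ‖qterm χ r n w b c x y‖ ≤ 1 := by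
  unfold qterm
  rw [norm_mul, norm_prod, norm_prod]
  refine mul_le_one₀ (Finset.prod_le_one (fun i _ => norm_nonneg _) fun i _ => ?_)
    (Finset.prod_nonneg fun i _ => norm_nonneg _)
    (Finset.prod_le_one (fun i _ => norm_nonneg _) fun i _ => ?_)
  · exact χ.norm_le_one _
  · rw [RCLike.norm_conj]
    exact χ.norm_le_one _

theorem qexpand (χ : DirichletCharacter ℂ p) (r n : ℕ) (w : Fin n → ZMod p) (x y : ZMod p) :
    ((‖∑ j, χ ((x + w j) ^ 2 - y)‖ ^ (2 * r) : ℝ) : ℂ) =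
      ∑ b : Fin r → Fin n, ∑ c : Fin r → Fin n, qterm χ r n w b c x y := by
  set S : ℂ := ∑ j, χ ((x + w j) ^ 2 - y) with hS
  have h1 : ((‖S‖ ^ (2 * r) : ℝ) : ℂ) = S ^ r * (starRingEnd ℂ) S ^ r := by
    rw [← mul_pow, Complex.mul_conj, Complex.normSq_eq_norm_sq, pow_mul]
    push_cast
    ring
  have h2 : S ^ r = ∑ b : Fin r → Fin n, ∏ i, χ ((x + w (b i)) ^ 2 - y) := by
    rw [hS, ← Fin.prod_const, Finset.prod_univ_sum, Fintype.piFinset_univ]
  have h3 : (starRingEnd ℂ) S ^ r =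
      ∑ c : Fin r → Fin n, ∏ i, (starRingEnd ℂ) (χ ((x + w (c i)) ^ 2 - y)) := by
    rw [hS, map_sum, ← Fin.prod_const, Finset.prod_univ_sum, Fintype.piFinset_univ]
  rw [h1, h2, h3, Finset.sum_mul_sum]
  rfl

theorem uniqF_of_uniq {p : ℕ} {r n : ℕ} (w : Fin n → ZMod p) (hw : Function.Injective w)
    (b c : Fin r → Fin n) (h : Uniq (fun i => (b i : ℕ)) (fun i => (c i : ℕ))) :
    UniqF (fun i => w (b i)) (fun i => w (c i)) := by
  classical
  obtain ⟨v, hv⟩ := h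
  have hvn : v < n := by
    by_contra hcon
    have h1 : (univ.filter fun i => (b i : ℕ) = v) = ∅ :=
      filter_false_of_mem fun i _ hi => by have := (b i).2; omega
    have h2 : (univ.filter fun i => (c i : ℕ) = v) = ∅ :=
      filter_false_of_mem fun i _ hi => by have := (c i).2; omega
    rw [h1, h2] at hv
    simp at hv
  refine ⟨w ⟨v, hvn⟩, ?_⟩
  rw [← hv]
  have key : ∀ j : Fin n, (w j = w ⟨v, hvn⟩ ↔ (j : ℕ) = v) := by
    intro j
    rw [hw.eq_iff]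
    constructor
    · intro h3
      rw [h3]
    · intro h1
      exact Fin.ext h1
  congr 1
  · congr 1
    ext i
    simp only [mem_filter, mem_univ, true_and]
    exact key (b i)
  · congr 1
    ext i
    simp only [mem_filter, mem_univ, true_and]
    exact key (c i)

/-- square root cancellation in both variables -/
theorem qcomplete (hp2 : p ≠ 2) (χ : DirichletCharacter ℂ p) (hχ : χ ≠ 1) (r n : ℕ) (hr : 1 ≤ r)
    (w : Fin n → ZMod p) (hw : Function.Injective w) (b c : Fin r → Fin n)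
    (h : Uniq (fun i => (b i : ℕ)) (fun i => (c i : ℕ))) :
    ‖∑ x : ZMod p, ∑ y : ZMod p, qterm χ r n w b c x y‖ ≤ 4 * (r : ℝ) ^ 2 * p := by
  classical
  have hu := uniqF_of_uniq w hw b c h
  have hch : ringChar (ZMod p) ≠ 2 := by
    rw [ZMod.ringChar_zmod_n]
    exact hp2
  have h20 : (2 : ZMod p) ≠ 0 := Ring.two_ne_zero hch
  obtain ⟨g, hg⟩ := FiniteField.exists_nonsquare hch
  have hgz : ∀ z : ZMod p, z ^ 2 ≠ g := fun z hz => hg ⟨z, by rw [← hz, sq]⟩
  have h1 : 2 * ∑ x : ZMod p, ∑ y : ZMod p, qterm χ r n w b c x y =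
      ∑ x : ZMod p, ∑ z : ZMod p, qterm χ r n w b c x (z ^ 2) +
      ∑ x : ZMod p, ∑ z : ZMod p, qterm χ r n w b c x (g * z ^ 2) := by
    rw [Finset.mul_sum, ← Finset.sum_add_distrib]
    exact Finset.sum_congr rfl fun x _ => sum_squares hp2 g hg _
  have h2 : ‖∑ x : ZMod p, ∑ z : ZMod p, qterm χ r n w b c x (g * z ^ 2)‖ ≤ (2 * r) * p :=
    complete_norm χ hχ g hgz r _ _ hu
  have h3 : ∑ x : ZMod p, ∑ z : ZMod p, qterm χ r n w b c x (z ^ 2) =
      (∑ s : ZMod p, term χ r n w b c s) * ∑ s : ZMod p, term χ r n w b c s := by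
    rw [Finset.sum_mul_sum, ← Fintype.sum_prod_type', ← Fintype.sum_prod_type']
    refine Fintype.sum_equiv
      { toFun := fun q : ZMod p × ZMod p => (q.1 - q.2, q.1 + q.2)
        invFun := fun q => ((q.1 + q.2) / 2, (q.2 - q.1) / 2)
        left_inv := fun q => by
          refine Prod.ext ?_ ?_
          · show (q.1 - q.2 + (q.1 + q.2)) / 2 = q.1
            field_simp
            ring
          · show (q.1 + q.2 - (q.1 - q.2)) / 2 = q.2
            field_simp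
            ring
        right_inv := fun q => by
          refine Prod.ext ?_ ?_
          · show (q.1 + q.2) / 2 - (q.2 - q.1) / 2 = q.1
            field_simp
            ring
          · show (q.1 + q.2) / 2 + (q.2 - q.1) / 2 = q.2
            field_simp
            ring } _ _ ?_
    intro q
    show qterm χ r n w b c q.1 (q.2 ^ 2) = term χ r n w b c (q.1 - q.2) * term χ r n w b c (q.1 + q.2)
    unfold qterm term
    have e : ∀ v : ZMod p, χ ((q.1 + v) ^ 2 - q.2 ^ 2) = χ (q.1 - q.2 + v) * χ (q.1 + q.2 + v) := by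
      intro v
      rw [← map_mul]
      congr 1
      ring
    simp only [e, map_mul, Finset.prod_mul_distrib]
    ring
  have h4 : ‖∑ s : ZMod p, term χ r n w b c s‖ ≤ (2 * r) * Real.sqrt p := by
    have := complete_field χ hχ r _ _ hu
    rw [ZMod.card] at this
    exact this
  have h5 : ‖∑ x : ZMod p, ∑ z : ZMod p, qterm χ r n w b c x (z ^ 2)‖ ≤ 4 * (r : ℝ) ^ 2 * p := by
    rw [h3, norm_mul]
    calc ‖∑ s : ZMod p, term χ r n w b c s‖ * ‖∑ s : ZMod p, term χ r n w b c s‖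
        ≤ ((2 * r) * Real.sqrt p) * ((2 * r) * Real.sqrt p) :=
          mul_le_mul h4 h4 (norm_nonneg _) (by positivity)
      _ = 4 * (r : ℝ) ^ 2 * (Real.sqrt p * Real.sqrt p) := by ring
      _ = _ := by rw [Real.mul_self_sqrt (Nat.cast_nonneg _)]
  have h6 : 2 * ‖∑ x : ZMod p, ∑ y : ZMod p, qterm χ r n w b c x y‖
      ≤ 4 * (r : ℝ) ^ 2 * p + (2 * r) * p := by
    have : 2 * ‖∑ x : ZMod p, ∑ y : ZMod p, qterm χ r n w b c x y‖ =
        ‖2 * ∑ x : ZMod p, ∑ y : ZMod p, qterm χ r n w b c x y‖ := by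
      rw [norm_mul]
      simp
    rw [this, h1]
    exact (norm_add_le _ _).trans (add_le_add h5 h2)
  have hrR : (1 : ℝ) ≤ r := by exact_mod_cast hr
  have hp0 : (0 : ℝ) ≤ p := Nat.cast_nonneg _
  have h7 : (2 * (r : ℝ)) * p ≤ 4 * (r : ℝ) ^ 2 * p := by
    apply mul_le_mul_of_nonneg_right _ hp0
    nlinarith
  linarith

open Classical in
theorem qmoment (hp2 : p ≠ 2) (χ : DirichletCharacter ℂ p) (hχ : χ ≠ 1) (r n : ℕ) (hr : 1 ≤ r)
    (w : Fin n → ZMod p) (hw : Function.Injective w) :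
    ∑ x : ZMod p, ∑ y : ZMod p, ‖∑ j, χ ((x + w j) ^ 2 - y)‖ ^ (2 * r) ≤
      (r : ℝ) ^ (2 * r) * (n : ℝ) ^ r * (p : ℝ) ^ 2 + 4 * (r : ℝ) ^ 2 * (n : ℝ) ^ (2 * r) * p := by
  have hW : ((∑ x : ZMod p, ∑ y : ZMod p, ‖∑ j, χ ((x + w j) ^ 2 - y)‖ ^ (2 * r) : ℝ) : ℂ) =
      ∑ u : (Fin r → Fin n) × (Fin r → Fin n), ∑ x : ZMod p, ∑ y : ZMod p,
        qterm χ r n w u.1 u.2 x y := by
    have e2 : ∑ u : (Fin r → Fin n) × (Fin r → Fin n), ∑ x : ZMod p, ∑ y : ZMod p,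
        qterm χ r n w u.1 u.2 x y = ∑ x : ZMod p, ∑ y : ZMod p,
        ∑ u : (Fin r → Fin n) × (Fin r → Fin n), qterm χ r n w u.1 u.2 x y := by
      rw [Finset.sum_comm]
      refine Finset.sum_congr rfl fun x _ => ?_
      rw [Finset.sum_comm]
    rw [e2]
    push_cast
    refine Finset.sum_congr rfl fun x _ => Finset.sum_congr rfl fun y _ => ?_
    have := qexpand χ r n w x y
    push_cast at this
    rw [this, ← Finset.univ_product_univ, Finset.sum_product]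
  have hW0 : 0 ≤ ∑ x : ZMod p, ∑ y : ZMod p, ‖∑ j, χ ((x + w j) ^ 2 - y)‖ ^ (2 * r) :=
    Finset.sum_nonneg fun x _ => Finset.sum_nonneg fun y _ => by positivity
  have hW1 : ∑ x : ZMod p, ∑ y : ZMod p, ‖∑ j, χ ((x + w j) ^ 2 - y)‖ ^ (2 * r) =
      ‖∑ u : (Fin r → Fin n) × (Fin r → Fin n), ∑ x : ZMod p, ∑ y : ZMod p,
        qterm χ r n w u.1 u.2 x y‖ := by
    rw [← hW, Complex.norm_real, Real.norm_eq_abs, abs_of_nonneg hW0]
  rw [hW1]
  refine (norm_sum_le _ _).trans ?_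
  rw [← Finset.sum_filter_add_sum_filter_not Finset.univ
    (fun u : (Fin r → Fin n) × (Fin r → Fin n) =>
      ¬ Uniq (fun i => (u.1 i : ℕ)) (fun i => (u.2 i : ℕ)))]
  refine add_le_add ?_ ?_
  · have h1 : ∀ u ∈ Finset.univ.filter (fun u : (Fin r → Fin n) × (Fin r → Fin n) =>
        ¬ Uniq (fun i => (u.1 i : ℕ)) (fun i => (u.2 i : ℕ))),
        ‖∑ x : ZMod p, ∑ y : ZMod p, qterm χ r n w u.1 u.2 x y‖ ≤ (p : ℝ) ^ 2 := by
      intro u _
      refine (norm_sum_le _ _).trans ?_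
      calc ∑ x : ZMod p, ‖∑ y : ZMod p, qterm χ r n w u.1 u.2 x y‖
          ≤ ∑ _x : ZMod p, (p : ℝ) := by
            refine Finset.sum_le_sum fun x _ => (norm_sum_le _ _).trans ?_
            calc ∑ y : ZMod p, ‖qterm χ r n w u.1 u.2 x y‖ ≤ ∑ _y : ZMod p, (1 : ℝ) :=
                  Finset.sum_le_sum fun y _ => qterm_norm_le χ r n w u.1 u.2 x y
              _ = p := by simp
        _ = (p : ℝ) ^ 2 := by simp [sq]
    refine (Finset.sum_le_card_nsmul _ _ _ h1).trans ?_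
    rw [nsmul_eq_mul]
    have h2 : (((Finset.univ.filter (fun u : (Fin r → Fin n) × (Fin r → Fin n) =>
        ¬ Uniq (fun i => (u.1 i : ℕ)) (fun i => (u.2 i : ℕ)))).card : ℕ) : ℝ) ≤
        (r : ℝ) ^ (2 * r) * (n : ℝ) ^ r := by
      exact_mod_cast tup r n hr
    exact mul_le_mul_of_nonneg_right h2 (by positivity)
  · have h1 : ∀ u ∈ Finset.univ.filter (fun u : (Fin r → Fin n) × (Fin r → Fin n) =>
        ¬ ¬ Uniq (fun i => (u.1 i : ℕ)) (fun i => (u.2 i : ℕ))),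
        ‖∑ x : ZMod p, ∑ y : ZMod p, qterm χ r n w u.1 u.2 x y‖ ≤ 4 * (r : ℝ) ^ 2 * p := by
      intro u hu
      rw [Finset.mem_filter] at hu
      exact qcomplete hp2 χ hχ r n hr w hw u.1 u.2 (not_not.1 hu.2)
    refine (Finset.sum_le_card_nsmul _ _ _ h1).trans ?_
    rw [nsmul_eq_mul]
    have h2 : (((Finset.univ.filter (fun u : (Fin r → Fin n) × (Fin r → Fin n) =>
        ¬ ¬ Uniq (fun i => (u.1 i : ℕ)) (fun i => (u.2 i : ℕ)))).card : ℕ) : ℝ) ≤
        (n : ℝ) ^ (2 * r) := by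
      have h3 := Finset.card_filter_le (Finset.univ : Finset ((Fin r → Fin n) × (Fin r → Fin n)))
        (fun u => ¬ ¬ Uniq (fun i => (u.1 i : ℕ)) (fun i => (u.2 i : ℕ)))
      have h4 : (Finset.univ : Finset ((Fin r → Fin n) × (Fin r → Fin n))).card = n ^ (2 * r) := by
        rw [Finset.card_univ, Fintype.card_prod, Fintype.card_fun, Fintype.card_fin,
          Fintype.card_fin, two_mul, pow_add]
      rw [h4] at h3
      exact_mod_cast h3
    calc _ ≤ (n : ℝ) ^ (2 * r) * (4 * (r : ℝ) ^ 2 * p) :=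
          mul_le_mul_of_nonneg_right h2 (by positivity)
      _ = 4 * (r : ℝ) ^ 2 * (n : ℝ) ^ (2 * r) * p := by ring

/-- the sum along `L` consecutive shifts -/
noncomputable def QQ (L : ℕ) (χ : DirichletCharacter ℂ p) (x y : ZMod p) : ℂ :=
  ∑ l ∈ range L, χ ((x + (l : ZMod p)) ^ 2 - y)

/-- the pairs with a large sum -/
noncomputable def BadQ (L : ℕ) (χ : DirichletCharacter ℂ p) (B : ℝ) : Finset (ZMod p × ZMod p) :=
  univ.filter fun q => B < ‖QQ L χ q.1 q.2‖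

theorem mem_BadQ {L : ℕ} {χ : DirichletCharacter ℂ p} {B : ℝ} {q : ZMod p × ZMod p} :
    q ∈ BadQ L χ B ↔ B < ‖QQ L χ q.1 q.2‖ := by
  unfold BadQ
  simp

theorem QQ_le (L : ℕ) (χ : DirichletCharacter ℂ p) (x y : ZMod p) : ‖QQ L χ x y‖ ≤ L := by
  unfold QQ
  refine (norm_sum_le _ _).trans ?_
  calc ∑ l ∈ range L, ‖χ ((x + (l : ZMod p)) ^ 2 - y)‖
      ≤ ∑ _l ∈ range L, (1 : ℝ) :=
        Finset.sum_le_sum fun l _ => DirichletCharacter.norm_le_one χ _
    _ = L := by simp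

theorem badQ_bound (hp2 : p ≠ 2) (L : ℕ) (hL : L ≤ p) (χ : DirichletCharacter ℂ p) (hχ : χ ≠ 1)
    (B : ℝ) (hB : 0 ≤ B) (k : ℕ) (hk : 1 ≤ k) :
    ((BadQ L χ B).card : ℝ) * B ^ (2 * k)
      ≤ (k : ℝ) ^ (2 * k) * (L : ℝ) ^ k * (p : ℝ) ^ 2 + 4 * (k : ℝ) ^ 2 * (L : ℝ) ^ (2 * k) * p := by
  classical
  have h := qmoment hp2 χ hχ k L hk (fun j : Fin L => ((j : ℕ) : ZMod p)) (by
    intro i j hij
    simp only at hij
    rw [ZMod.natCast_eq_natCast_iff'] at hij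
    rw [Nat.mod_eq_of_lt (i.2.trans_le hL), Nat.mod_eq_of_lt (j.2.trans_le hL)] at hij
    exact Fin.ext hij)
  have e : ∀ x y : ZMod p, ∑ j : Fin L, χ ((x + ((j : ℕ) : ZMod p)) ^ 2 - y) = QQ L χ x y := by
    intro x y
    unfold QQ
    rw [Finset.sum_range]
  simp only [e] at h
  refine le_trans ?_ h
  rw [← nsmul_eq_mul, ← Finset.sum_const, ← Finset.sum_product', Finset.univ_product_univ]
  calc ∑ _q ∈ BadQ L χ B, B ^ (2 * k)
      ≤ ∑ q ∈ BadQ L χ B, ‖QQ L χ q.1 q.2‖ ^ (2 * k) :=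
        Finset.sum_le_sum fun q hq => pow_le_pow_left₀ hB (mem_BadQ.1 hq).le _
    _ ≤ _ := Finset.sum_le_sum_of_subset_of_nonneg (Finset.subset_univ _)
        fun _ _ _ => by positivity

/-- few bad pairs -/
theorem badQ_small (hp2 : p ≠ 2) (L : ℕ) (hL : L ≤ p) (hL1 : 1 ≤ L) (k : ℕ) (hk : 1 ≤ k)
    (hLk : p ≤ L ^ k) (χ : DirichletCharacter ℂ p) (hχ : χ ≠ 1) :
    ((BadQ L χ ((L : ℝ) ^ (1 - 1 / (2 * (k : ℝ))))).card : ℝ)
      ≤ ((k : ℝ) ^ (2 * k) + 4 * (k : ℝ) ^ 2) * (L * p) := by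
  have hL0 : (0 : ℝ) < L := by exact_mod_cast hL1
  have hkR : (0 : ℝ) < k := by exact_mod_cast hk
  have h := badQ_bound hp2 L hL χ hχ ((L : ℝ) ^ (1 - 1 / (2 * (k : ℝ)))) (by positivity) k hk
  have e1 : ((L : ℝ) ^ (1 - 1 / (2 * (k : ℝ)))) ^ (2 * k) * L = (L : ℝ) ^ (2 * k) := by
    rw [← Real.rpow_natCast, ← Real.rpow_mul hL0.le, ← Real.rpow_add_one hL0.ne',
      ← Real.rpow_natCast]
    congr 1
    push_cast
    field_simp
    ring
  have hLk' : (p : ℝ) ≤ (L : ℝ) ^ k := by exact_mod_cast hLk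
  have h2 : (k : ℝ) ^ (2 * k) * (L : ℝ) ^ k * (p : ℝ) ^ 2
        + 4 * (k : ℝ) ^ 2 * (L : ℝ) ^ (2 * k) * p
      ≤ ((k : ℝ) ^ (2 * k) + 4 * (k : ℝ) ^ 2) * ((L : ℝ) ^ (2 * k) * p) := by
    have h3 : (L : ℝ) ^ k * (p : ℝ) ^ 2 ≤ (L : ℝ) ^ (2 * k) * p := by
      calc (L : ℝ) ^ k * (p : ℝ) ^ 2 = ((L : ℝ) ^ k * p) * p := by ring
        _ ≤ ((L : ℝ) ^ k * (L : ℝ) ^ k) * p := by
            refine mul_le_mul_of_nonneg_right (mul_le_mul_of_nonneg_left hLk' (by positivity))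
              (Nat.cast_nonneg _)
        _ = _ := by ring
    have h4 : (k : ℝ) ^ (2 * k) * ((L : ℝ) ^ k * (p : ℝ) ^ 2)
        ≤ (k : ℝ) ^ (2 * k) * ((L : ℝ) ^ (2 * k) * p) := mul_le_mul_of_nonneg_left h3 (by positivity)
    nlinarith
  have h3 := h.trans h2
  set b : ℝ := ((L : ℝ) ^ (1 - 1 / (2 * (k : ℝ)))) ^ (2 * k) with hb
  have hb0 : 0 < b := by positivity
  rw [← e1] at h3
  have h5 : ((k : ℝ) ^ (2 * k) + 4 * (k : ℝ) ^ 2) * (b * L * p)
      = (((k : ℝ) ^ (2 * k) + 4 * (k : ℝ) ^ 2) * (L * p)) * b := by ring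
  rw [h5] at h3
  exact le_of_mul_le_mul_right h3 hb0

end Pool.Agent.H424.QP
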