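import Pool.Agent.H424.QP.Shift

/-! Power saving for short sums over shifted squares, on average over the discriminants. -/

set_option autoImplicit false

namespace Pool.Agent.H424.QP

open Finset Pool.Agent.W27.BG

/-- lengths up to the square root of `p` -/
theorem quad_short (ε : ℝ) (hε : 0 < ε) :
    ∃ η : ℝ, 0 < η ∧ ∃ P : ℕ, ∀ (p : ℕ) [Fact p.Prime], P ≤ p →
      ∀ (χ : DirichletCharacter ℂ p), χ ≠ 1 → ∀ (s : Finset (ZMod p)) (x : ZMod p → ZMod p) (N : ℕ),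
        (N : ℝ) ^ 2 ≤ p → (p : ℝ) ^ (1 + ε) ≤ s.card * (N : ℝ) ^ 2 →
          ∑ D ∈ s, ‖∑ n ∈ range N, χ (((n : ZMod p) + x D) ^ 2 - D)‖ ≤
            (p : ℝ) ^ (-η) * (s.card * N) := by
  classical
  obtain ⟨κ, hκdef⟩ : ∃ κ : ℝ, κ = min ε 1 / 16 := ⟨_, rfl⟩
  have hmin0 : 0 < min ε 1 := lt_min hε one_pos
  have hκ0 : 0 < κ := by rw [hκdef]; positivity
  have hκε : 16 * κ ≤ ε := by rw [hκdef]; linarith [min_le_left ε 1]
  have hκ1 : 16 * κ ≤ 1 := by rw [hκdef]; linarith [min_le_right ε 1]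
  obtain ⟨k, hk⟩ := exists_nat_ge (2 / κ)
  have hκk : 2 ≤ κ * k := by
    rw [div_le_iff₀ hκ0] at hk
    linarith
  have hk1 : 1 ≤ k := by
    rcases Nat.eq_zero_or_pos k with h | h
    · subst h
      simp at hκk
      linarith
    · exact h
  have hkR : (1 : ℝ) ≤ k := by exact_mod_cast hk1
  obtain ⟨Cd, hCd0, hCd⟩ := Pool.Agent.H510R2.divisor_bound κ hκ0
  obtain ⟨C3, hC3⟩ : ∃ C3 : ℝ, C3 = (k : ℝ) ^ (2 * k) + 4 * (k : ℝ) ^ 2 := ⟨_, rfl⟩
  have hC30 : 0 ≤ C3 := by rw [hC3]; positivity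
  obtain ⟨C4, hC4⟩ : ∃ C4 : ℝ, C4 = Real.sqrt (C3 * (1 + 4 * Cd)) := ⟨_, rfl⟩
  have hC40 : 0 ≤ C4 := by rw [hC4]; positivity
  obtain ⟨P1, hP1⟩ := large_rpow κ 4 hκ0
  obtain ⟨P2, hP2⟩ := large_rpow (κ / 2) 2 (by positivity)
  obtain ⟨P3, hP3⟩ := large_rpow (κ / (8 * k)) (5 + C4) (by positivity)
  refine ⟨κ / (8 * k), by positivity, P1 + P2 + P3 + 3, ?_⟩
  intro p _ hp χ hχ s x N hNp hsN
  have hP1' := hP1 p (by omega)
  have hP2' := hP2 p (by omega)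
  have hP3' := hP3 p (by omega)
  have hp2 : p ≠ 2 := by omega
  have hp1 : (1 : ℝ) ≤ p := by exact_mod_cast (by omega : 1 ≤ p)
  have hp0 : (0 : ℝ) < p := by linarith
  -- the size of `s`
  have hsp : (s.card : ℝ) ≤ p := by
    have h1 := Finset.card_le_univ s
    rw [ZMod.card] at h1
    exact_mod_cast h1
  have hs0 : (0 : ℝ) < s.card := by
    rcases (Nat.cast_nonneg s.card : (0 : ℝ) ≤ s.card).eq_or_lt with h | h
    · rw [← h, zero_mul] at hsN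
      have := Real.rpow_pos_of_pos hp0 (1 + ε)
      linarith
    · exact h
  have hN8 : (p : ℝ) ^ (8 * κ) ≤ N := by
    have h1 : (p : ℝ) ^ (1 + 16 * κ) ≤ p * (N : ℝ) ^ 2 := by
      calc (p : ℝ) ^ (1 + 16 * κ) ≤ (p : ℝ) ^ (1 + ε) :=
            Real.rpow_le_rpow_of_exponent_le hp1 (by linarith)
        _ ≤ s.card * (N : ℝ) ^ 2 := hsN
        _ ≤ p * (N : ℝ) ^ 2 := mul_le_mul_of_nonneg_right hsp (by positivity)
    rw [Real.rpow_add hp0, Real.rpow_one] at h1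
    have h2 : (p : ℝ) ^ (16 * κ) ≤ (N : ℝ) ^ 2 := le_of_mul_le_mul_left h1 hp0
    have h3 : (p : ℝ) ^ (16 * κ) = ((p : ℝ) ^ (8 * κ)) ^ 2 := by
      rw [← Real.rpow_natCast, ← Real.rpow_mul hp0.le]
      congr 1
      push_cast
      ring
    rw [h3] at h2
    exact le_of_sq_le_sq h2 (Nat.cast_nonneg _)
  have hN0 : (0 : ℝ) < N := lt_of_lt_of_le (by positivity) hN8
  have hN1 : 1 ≤ N := by exact_mod_cast hN0
  -- the length of the shifts
  obtain ⟨L, hLdef⟩ : ∃ L : ℕ, L = ⌊(p : ℝ) ^ κ⌋₊ := ⟨_, rfl⟩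
  have hLle : (L : ℝ) ≤ (p : ℝ) ^ κ := by rw [hLdef]; exact Nat.floor_le (by positivity)
  have hLlt : (p : ℝ) ^ κ < L + 1 := by rw [hLdef]; exact Nat.lt_floor_add_one _
  have hL1R : (1 : ℝ) < L := by linarith
  have hL1 : 1 ≤ L := by exact_mod_cast hL1R.le
  have hL0 : (0 : ℝ) < L := by linarith
  have hLhalf : (p : ℝ) ^ κ ≤ 2 * L := by linarith
  have hLp : L ≤ p := by
    have h1 : (L : ℝ) ≤ p := by
      calc (L : ℝ) ≤ (p : ℝ) ^ κ := hLle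
        _ ≤ (p : ℝ) ^ (1 : ℝ) := Real.rpow_le_rpow_of_exponent_le hp1 (by linarith)
        _ = p := Real.rpow_one _
    exact_mod_cast h1
  have hLbig : (p : ℝ) ^ (κ / 2) ≤ L := by
    have e1 : (p : ℝ) ^ κ = (p : ℝ) ^ (κ / 2) * (p : ℝ) ^ (κ / 2) := by
      rw [← Real.rpow_add hp0]; congr 1; ring
    rw [e1] at hLhalf
    nlinarith [Real.rpow_pos_of_pos hp0 (κ / 2)]
  have hLk : p ≤ L ^ k := by
    have h2 : (p : ℝ) ≤ (L : ℝ) ^ k := by
      calc (p : ℝ) = (p : ℝ) ^ (1 : ℝ) := (Real.rpow_one _).symm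
        _ ≤ (p : ℝ) ^ (κ / 2 * k) := Real.rpow_le_rpow_of_exponent_le hp1 (by linarith)
        _ = ((p : ℝ) ^ (κ / 2)) ^ k := by rw [Real.rpow_mul hp0.le, Real.rpow_natCast]
        _ ≤ (L : ℝ) ^ k := pow_le_pow_left₀ (by positivity) hLbig k
    exact_mod_cast h2
  -- the range of the multipliers
  obtain ⟨U, hUdef⟩ : ∃ U : ℕ, U = ⌊(N : ℝ) * (p : ℝ) ^ (-(2 * κ))⌋₊ := ⟨_, rfl⟩
  have hUle : (U : ℝ) ≤ (N : ℝ) * (p : ℝ) ^ (-(2 * κ)) := by
    rw [hUdef]; exact Nat.floor_le (by positivity)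
  have hUlt : (N : ℝ) * (p : ℝ) ^ (-(2 * κ)) < U + 1 := by rw [hUdef]; exact Nat.lt_floor_add_one _
  have hNU : (p : ℝ) ^ κ ≤ (N : ℝ) * (p : ℝ) ^ (-(2 * κ)) := by
    calc (p : ℝ) ^ κ ≤ (p : ℝ) ^ (8 * κ + -(2 * κ)) :=
          Real.rpow_le_rpow_of_exponent_le hp1 (by linarith)
      _ = (p : ℝ) ^ (8 * κ) * (p : ℝ) ^ (-(2 * κ)) := Real.rpow_add hp0 _ _
      _ ≤ _ := mul_le_mul_of_nonneg_right hN8 (by positivity)
  have hU1R : (1 : ℝ) < U := by linarith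
  have hU1 : 1 ≤ U := by exact_mod_cast hU1R.le
  have hU0 : (0 : ℝ) < U := by linarith
  have hUhalf : (N : ℝ) * (p : ℝ) ^ (-(2 * κ)) ≤ 2 * U := by linarith
  have hNdivU : (N : ℝ) ≤ 2 * U * (p : ℝ) ^ (2 * κ) := by
    have h1 : (N : ℝ) = (N : ℝ) * (p : ℝ) ^ (-(2 * κ)) * (p : ℝ) ^ (2 * κ) := by
      rw [mul_assoc, ← Real.rpow_add hp0]
      simp
    rw [h1]
    exact mul_le_mul_of_nonneg_right hUhalf (by positivity)
  have hUN : 4 * (N * U) ≤ p := by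
    have h1 : (4 : ℝ) * (N * U) ≤ p := by
      have h2 : (N : ℝ) * U ≤ p * (p : ℝ) ^ (-(2 * κ)) := by
        calc (N : ℝ) * U ≤ N * ((N : ℝ) * (p : ℝ) ^ (-(2 * κ))) :=
              mul_le_mul_of_nonneg_left hUle hN0.le
          _ = (N : ℝ) ^ 2 * (p : ℝ) ^ (-(2 * κ)) := by ring
          _ ≤ _ := mul_le_mul_of_nonneg_right hNp (by positivity)
      have h3 : (4 : ℝ) * (p : ℝ) ^ (-(2 * κ)) ≤ 1 := by
        have h4 : (p : ℝ) ^ (2 * κ) * (p : ℝ) ^ (-(2 * κ)) = 1 := by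
          rw [← Real.rpow_add hp0]
          simp
        have h5 : (4 : ℝ) ≤ (p : ℝ) ^ (2 * κ) := by
          refine hP1'.le.trans ?_
          exact Real.rpow_le_rpow_of_exponent_le hp1 (by linarith)
        calc (4 : ℝ) * (p : ℝ) ^ (-(2 * κ)) ≤ (p : ℝ) ^ (2 * κ) * (p : ℝ) ^ (-(2 * κ)) :=
              mul_le_mul_of_nonneg_right h5 (by positivity)
          _ = 1 := h4
      calc (4 : ℝ) * (N * U) ≤ 4 * (p * (p : ℝ) ^ (-(2 * κ))) :=
            mul_le_mul_of_nonneg_left h2 (by norm_num)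
        _ = p * (4 * (p : ℝ) ^ (-(2 * κ))) := by ring
        _ ≤ p * 1 := mul_le_mul_of_nonneg_left h3 hp0.le
        _ = p := mul_one _
    exact_mod_cast h1
  -- divisors
  have hT : ∀ u, 1 ≤ u → u ≤ 2 * U → u.divisors.card ≤ ⌊Cd * (p : ℝ) ^ κ⌋₊ := by
    intro u hu hu2
    apply Nat.le_floor
    refine (hCd u hu).trans (mul_le_mul_of_nonneg_left ?_ hCd0.le)
    have h1 : u ≤ p := by nlinarith
    exact Real.rpow_le_rpow (Nat.cast_nonneg _) (by exact_mod_cast h1) hκ0.le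
  have hTle : ((⌊Cd * (p : ℝ) ^ κ⌋₊ : ℕ) : ℝ) ≤ Cd * (p : ℝ) ^ κ := Nat.floor_le (by positivity)
  set B : ℝ := (L : ℝ) ^ (1 - 1 / (2 * (k : ℝ))) with hB
  have hB0 : 0 ≤ B := by positivity
  have hZ := badQ_small hp2 L hLp hL1 k hk1 hLk χ hχ
  rw [← hC3, ← hB] at hZ
  have hmain := quad_bound χ B hB0 U N L _ hU1 hN1 hUN hT s x
  set S := ∑ D ∈ s, ‖∑ n ∈ range N, χ (((n : ZMod p) + x D) ^ 2 - D)‖ with hS
  set W := (p : ℝ) ^ (-(κ / (4 * k))) with hW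
  have hW0 : 0 < W := by positivity
  have hkk : κ / (4 * k) ≤ κ := by
    rw [div_le_iff₀ (by positivity)]
    nlinarith
  -- the first term
  have t1 : B ≤ L * W := by
    have e1 : B = L * (L : ℝ) ^ (-(1 / (2 * (k : ℝ)))) := by
      rw [hB, sub_eq_add_neg, Real.rpow_add hL0, Real.rpow_one]
    rw [e1]
    refine mul_le_mul_of_nonneg_left ?_ hL0.le
    have e1 : W = ((p : ℝ) ^ (κ / 2)) ^ (-(1 / (2 * (k : ℝ)))) := by
      rw [hW, ← Real.rpow_mul hp0.le]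
      congr 1
      field_simp
      ring
    rw [e1]
    apply Real.rpow_le_rpow_of_nonpos (by positivity) hLbig
    have : 0 < 1 / (2 * (k : ℝ)) := by positivity
    linarith
  -- the third term
  have t3 : (U : ℝ) * L ≤ N * W := by
    calc (U : ℝ) * L ≤ ((N : ℝ) * (p : ℝ) ^ (-(2 * κ))) * (p : ℝ) ^ κ :=
          mul_le_mul hUle hLle hL0.le (by positivity)
      _ = N * (p : ℝ) ^ (-κ) := by
          rw [mul_assoc, ← Real.rpow_add hp0]
          congr 2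
          ring
      _ ≤ N * W := mul_le_mul_of_nonneg_left
          (Real.rpow_le_rpow_of_exponent_le hp1 (by linarith)) hN0.le
  -- the second term
  have t2 : Real.sqrt ((BadQ L χ B).card * (s.card * ((U : ℝ) ^ 2 + 2 * N * U *
      (⌊Cd * (p : ℝ) ^ κ⌋₊ : ℕ)))) ≤ U * (C4 * W * (s.card * N)) := by
    rw [Real.sqrt_le_left (by positivity)]
    have h1 : (U : ℝ) ^ 2 + 2 * N * U * (⌊Cd * (p : ℝ) ^ κ⌋₊ : ℕ) ≤
        (U : ℝ) ^ 2 * ((1 + 4 * Cd) * (p : ℝ) ^ (3 * κ)) := by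
      have h2 : 2 * (N : ℝ) * U * (⌊Cd * (p : ℝ) ^ κ⌋₊ : ℕ) ≤
          2 * (2 * U * (p : ℝ) ^ (2 * κ)) * U * (Cd * (p : ℝ) ^ κ) := by
        refine mul_le_mul ?_ hTle (Nat.cast_nonneg _) (by positivity)
        refine mul_le_mul_of_nonneg_right ?_ hU0.le
        exact mul_le_mul_of_nonneg_left hNdivU (by norm_num)
      have e1 : (p : ℝ) ^ (2 * κ) * (p : ℝ) ^ κ = (p : ℝ) ^ (3 * κ) := by
        rw [← Real.rpow_add hp0]
        congr 1
        ring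
      have h3 : (1 : ℝ) ≤ (p : ℝ) ^ (3 * κ) := Real.one_le_rpow hp1 (by positivity)
      calc (U : ℝ) ^ 2 + 2 * N * U * (⌊Cd * (p : ℝ) ^ κ⌋₊ : ℕ)
          ≤ (U : ℝ) ^ 2 * 1 + 2 * (2 * U * (p : ℝ) ^ (2 * κ)) * U * (Cd * (p : ℝ) ^ κ) := by
            linarith
        _ = (U : ℝ) ^ 2 * 1 + (U : ℝ) ^ 2 * (4 * Cd * ((p : ℝ) ^ (2 * κ) * (p : ℝ) ^ κ)) := by ring
        _ = (U : ℝ) ^ 2 * 1 + (U : ℝ) ^ 2 * (4 * Cd * (p : ℝ) ^ (3 * κ)) := by rw [e1]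
        _ ≤ (U : ℝ) ^ 2 * (p : ℝ) ^ (3 * κ) + (U : ℝ) ^ 2 * (4 * Cd * (p : ℝ) ^ (3 * κ)) := by
            have := mul_le_mul_of_nonneg_left h3 (sq_nonneg (U : ℝ))
            linarith
        _ = _ := by ring
    have h2 : ((BadQ L χ B).card : ℝ) ≤ C3 * (p : ℝ) ^ (1 + κ) := by
      refine hZ.trans (mul_le_mul_of_nonneg_left ?_ hC30)
      rw [Real.rpow_add hp0, Real.rpow_one, mul_comm]
      exact mul_le_mul_of_nonneg_left hLle hp0.le
    have e4 : C4 ^ 2 = C3 * (1 + 4 * Cd) := by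
      rw [hC4]
      exact Real.sq_sqrt (by positivity)
    calc ((BadQ L χ B).card : ℝ) * (s.card * ((U : ℝ) ^ 2 + 2 * N * U *
        (⌊Cd * (p : ℝ) ^ κ⌋₊ : ℕ)))
        ≤ (C3 * (p : ℝ) ^ (1 + κ)) * (s.card *
          ((U : ℝ) ^ 2 * ((1 + 4 * Cd) * (p : ℝ) ^ (3 * κ)))) := by
          refine mul_le_mul h2 (mul_le_mul_of_nonneg_left h1 hs0.le) (by positivity) (by positivity)
      _ = (U : ℝ) ^ 2 * C4 ^ 2 * s.card * ((p : ℝ) ^ (1 + κ) * (p : ℝ) ^ (3 * κ)) := by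
          rw [e4]; ring
      _ = (U : ℝ) ^ 2 * C4 ^ 2 * s.card * ((p : ℝ) ^ (-(12 * κ)) * (p : ℝ) ^ (1 + 16 * κ)) := by
          rw [← Real.rpow_add hp0, ← Real.rpow_add hp0]
          congr 2
          ring
      _ ≤ (U : ℝ) ^ 2 * C4 ^ 2 * s.card * (W ^ 2 * (s.card * (N : ℝ) ^ 2)) := by
          refine mul_le_mul_of_nonneg_left ?_ (by positivity)
          refine mul_le_mul ?_ ?_ (by positivity) (by positivity)
          · rw [hW, ← Real.rpow_natCast, ← Real.rpow_mul hp0.le]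
            apply Real.rpow_le_rpow_of_exponent_le hp1
            push_cast
            linarith
          · refine le_trans ?_ hsN
            exact Real.rpow_le_rpow_of_exponent_le hp1 (by linarith)
      _ = (U * (C4 * W * (s.card * N))) ^ 2 := by ring
  have hUL : (0 : ℝ) < U * L := by positivity
  have hfin : (U * L : ℝ) * S ≤ (U * L) * ((5 + C4) * W * (s.card * N)) := by
    calc (U * L : ℝ) * S ≤ B * (s.card * U * N) +
        L * Real.sqrt ((BadQ L χ B).card * (s.card * ((U : ℝ) ^ 2 + 2 * N * U *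
          (⌊Cd * (p : ℝ) ^ κ⌋₊ : ℕ)))) +
        4 * (U * L : ℝ) ^ 2 * s.card := hmain
      _ ≤ (L * W) * (s.card * U * N) + L * (U * (C4 * W * (s.card * N))) +
          4 * ((U * L : ℝ) * (N * W)) * s.card := by
          refine add_le_add (add_le_add ?_ ?_) ?_
          · exact mul_le_mul_of_nonneg_right t1 (by positivity)
          · exact mul_le_mul_of_nonneg_left t2 hL0.le
          · refine mul_le_mul_of_nonneg_right ?_ hs0.le
            rw [sq]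
            have := mul_le_mul_of_nonneg_left t3 hUL.le
            linarith
      _ = _ := by ring
  have hS1 : S ≤ (5 + C4) * W * (s.card * N) := le_of_mul_le_mul_left hfin hUL
  refine hS1.trans (mul_le_mul_of_nonneg_right ?_ (by positivity))
  have e5 : (p : ℝ) ^ (-(κ / (8 * k))) = (p : ℝ) ^ (κ / (8 * k)) * W := by
    rw [hW, ← Real.rpow_add hp0]
    congr 1
    field_simp
    ring
  rw [e5]
  exact mul_le_mul_of_nonneg_right hP3'.le hW0.le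

end Pool.Agent.H424.QP
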