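import Pool.Agent.H424.QP.Count
import Pool.Graph.R_seed8.W27.BG.Numeric

/-! Shifting the variable of a short sum over shifted squares. -/

set_option autoImplicit false

namespace Pool.Agent.H424.QP

open Finset

theorem shift_one (F : ℕ → ℂ) (hF : ∀ n, ‖F n‖ ≤ 1) (N h : ℕ) :
    ‖∑ n ∈ range N, F n - ∑ n ∈ range N, F (n + h)‖ ≤ 2 * h := by
  have h1 := Finset.sum_range_add F h N
  have h2 := Finset.sum_range_add F N h
  rw [add_comm N h] at h2
  have h3 : ∑ n ∈ range N, F (n + h) = ∑ n ∈ range N, F (h + n) :=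
    Finset.sum_congr rfl fun n _ => by rw [add_comm]
  have h4 : ∑ n ∈ range N, F n - ∑ n ∈ range N, F (n + h) =
      ∑ n ∈ range h, F n - ∑ n ∈ range h, F (N + n) := by
    rw [h3]
    rw [h1] at h2
    linear_combination -h2
  rw [h4]
  have h5 : ∀ G : ℕ → ℂ, (∀ n, ‖G n‖ ≤ 1) → ‖∑ n ∈ range h, G n‖ ≤ h := by
    intro G hG
    refine (norm_sum_le _ _).trans ?_
    calc ∑ n ∈ range h, ‖G n‖ ≤ ∑ _n ∈ range h, (1 : ℝ) := Finset.sum_le_sum fun n _ => hG n
      _ = h := by simp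
  calc ‖∑ n ∈ range h, F n - ∑ n ∈ range h, F (N + n)‖
      ≤ ‖∑ n ∈ range h, F n‖ + ‖∑ n ∈ range h, F (N + n)‖ := norm_sub_le _ _
    _ ≤ h + h := add_le_add (h5 F hF) (h5 _ fun n => hF _)
    _ = 2 * h := by ring

theorem shift_many (F : ℕ → ℂ) (hF : ∀ n, ‖F n‖ ≤ 1) (N U L : ℕ) :
    (U * L : ℝ) * ‖∑ n ∈ range N, F n‖ ≤
      ∑ u ∈ Ioc U (2 * U), ∑ n ∈ range N, ‖∑ l ∈ range L, F (n + u * l)‖
        + 4 * (U * L : ℝ) ^ 2 := by
  classical
  have hIc : (Ioc U (2 * U)).card = U := by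
    rw [Nat.card_Ioc]
    omega
  have h1 : ‖(U * L : ℂ) * ∑ n ∈ range N, F n -
      ∑ u ∈ Ioc U (2 * U), ∑ l ∈ range L, ∑ n ∈ range N, F (n + u * l)‖ ≤
      4 * (U * L : ℝ) ^ 2 := by
    have e1 : (U * L : ℂ) * ∑ n ∈ range N, F n =
        ∑ u ∈ Ioc U (2 * U), ∑ l ∈ range L, ∑ n ∈ range N, F n := by
      rw [Finset.sum_const, Finset.sum_const, hIc, card_range, nsmul_eq_mul, nsmul_eq_mul]
      ring
    rw [e1, ← Finset.sum_sub_distrib]
    refine (norm_sum_le _ _).trans ?_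
    have h2 : ∀ u ∈ Ioc U (2 * U), ‖∑ l ∈ range L, ∑ n ∈ range N, F n -
        ∑ l ∈ range L, ∑ n ∈ range N, F (n + u * l)‖ ≤ L * (4 * (U * L)) := by
      intro u hu
      rw [mem_Ioc] at hu
      rw [← Finset.sum_sub_distrib]
      refine (norm_sum_le _ _).trans ?_
      have h3 : ∀ l ∈ range L, ‖∑ n ∈ range N, F n - ∑ n ∈ range N, F (n + u * l)‖ ≤
          4 * (U * L : ℝ) := by
        intro l hl
        rw [mem_range] at hl
        refine (shift_one F hF N (u * l)).trans ?_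
        have h4 : u * l ≤ 2 * U * L := Nat.mul_le_mul hu.2 hl.le
        have h5 : ((u * l : ℕ) : ℝ) ≤ ((2 * U * L : ℕ) : ℝ) := by exact_mod_cast h4
        push_cast at h5 ⊢
        linarith
      refine (Finset.sum_le_sum h3).trans ?_
      rw [Finset.sum_const, card_range, nsmul_eq_mul]
    refine (Finset.sum_le_sum h2).trans ?_
    rw [Finset.sum_const, hIc, nsmul_eq_mul]
    apply le_of_eq
    ring
  have h2 : ‖∑ u ∈ Ioc U (2 * U), ∑ l ∈ range L, ∑ n ∈ range N, F (n + u * l)‖ ≤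
      ∑ u ∈ Ioc U (2 * U), ∑ n ∈ range N, ‖∑ l ∈ range L, F (n + u * l)‖ := by
    refine (norm_sum_le _ _).trans (Finset.sum_le_sum fun u _ => ?_)
    rw [Finset.sum_comm]
    exact norm_sum_le _ _
  have h3 : (U * L : ℝ) * ‖∑ n ∈ range N, F n‖ = ‖(U * L : ℂ) * ∑ n ∈ range N, F n‖ := by
    rw [norm_mul]
    congr 1
    rw [norm_mul, Complex.norm_natCast, Complex.norm_natCast]
  rw [h3]
  have h4 := norm_sub_norm_le ((U * L : ℂ) * ∑ n ∈ range N, F n)
    (∑ u ∈ Ioc U (2 * U), ∑ l ∈ range L, ∑ n ∈ range N, F (n + u * l))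
  linarith

variable {p : ℕ} [Fact p.Prime]

theorem inner_sum (χ : DirichletCharacter ℂ p) (x : ZMod p → ZMod p) (D : ZMod p) (u n L : ℕ)
    (hu : ((u : ℕ) : ZMod p) ≠ 0) :
    ‖∑ l ∈ range L, χ ((((n + u * l : ℕ) : ZMod p) + x D) ^ 2 - D)‖ ≤
      ‖QQ L χ (par x (D, u, n)).1 (par x (D, u, n)).2‖ := by
  have e : ∀ l : ℕ, χ ((((n + u * l : ℕ) : ZMod p) + x D) ^ 2 - D) =
      χ ((u : ZMod p) ^ 2) * χ (((par x (D, u, n)).1 + (l : ZMod p)) ^ 2 - (par x (D, u, n)).2) := by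
    intro l
    rw [← map_mul]
    congr 1
    unfold par
    push_cast
    field_simp
    ring
  simp only [e]
  rw [← Finset.mul_sum, norm_mul]
  exact mul_le_of_le_one_left (norm_nonneg _) (DirichletCharacter.norm_le_one χ _)

/-- the bound before the choice of the parameters -/
theorem quad_bound (χ : DirichletCharacter ℂ p) (B : ℝ) (hB : 0 ≤ B) (U N L T : ℕ) (hU : 1 ≤ U)
    (hN1 : 1 ≤ N) (hUN : 4 * (N * U) ≤ p)
    (hT : ∀ u, 1 ≤ u → u ≤ 2 * U → u.divisors.card ≤ T) (s : Finset (ZMod p))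
    (x : ZMod p → ZMod p) :
    (U * L : ℝ) * ∑ D ∈ s, ‖∑ n ∈ range N, χ (((n : ZMod p) + x D) ^ 2 - D)‖ ≤
      B * (s.card * U * N) +
        L * Real.sqrt ((BadQ L χ B).card * (s.card * ((U : ℝ) ^ 2 + 2 * N * U * T))) +
        4 * (U * L : ℝ) ^ 2 * s.card := by
  classical
  have hppos : 0 < p := (Fact.out : p.Prime).pos
  have hu0 : ∀ u ∈ Ioc U (2 * U), ((u : ℕ) : ZMod p) ≠ 0 := by
    intro u hu h
    rw [mem_Ioc] at hu
    rw [ZMod.natCast_eq_zero_iff] at h
    have := Nat.le_of_dvd (by omega) h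
    have h1 : 4 * U ≤ 4 * (N * U) := by nlinarith
    omega
  set I := Ioc U (2 * U) with hI
  have hIc : I.card = U := by
    rw [hI, Nat.card_Ioc]
    omega
  set T0 := s ×ˢ I ×ˢ range N with hT0
  have h1 : (U * L : ℝ) * ∑ D ∈ s, ‖∑ n ∈ range N, χ (((n : ZMod p) + x D) ^ 2 - D)‖ ≤
      ∑ t ∈ T0, ‖QQ L χ (par x t).1 (par x t).2‖ + 4 * (U * L : ℝ) ^ 2 * s.card := by
    rw [Finset.mul_sum]
    have h2 : ∀ D ∈ s, (U * L : ℝ) * ‖∑ n ∈ range N, χ (((n : ZMod p) + x D) ^ 2 - D)‖ ≤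
        ∑ r ∈ I ×ˢ range N, ‖QQ L χ (par x (D, r)).1 (par x (D, r)).2‖ + 4 * (U * L : ℝ) ^ 2 := by
      intro D _
      refine (shift_many (fun n => χ (((n : ZMod p) + x D) ^ 2 - D))
        (fun n => DirichletCharacter.norm_le_one χ _) N U L).trans ?_
      refine add_le_add ?_ le_rfl
      rw [Finset.sum_product]
      refine Finset.sum_le_sum fun u hu => Finset.sum_le_sum fun n _ => ?_
      exact inner_sum χ x D u n L (hu0 u hu)
    refine (Finset.sum_le_sum h2).trans ?_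
    rw [Finset.sum_add_distrib, Finset.sum_const, nsmul_eq_mul, hT0, Finset.sum_product]
    apply le_of_eq
    ring
  refine h1.trans (add_le_add ?_ le_rfl)
  rw [← Finset.sum_filter_not_add_sum_filter T0 (fun t => par x t ∈ BadQ L χ B)]
  refine add_le_add ?_ ?_
  · have h2 : ∀ t ∈ T0.filter (fun t => ¬ par x t ∈ BadQ L χ B),
        ‖QQ L χ (par x t).1 (par x t).2‖ ≤ B := by
      intro t ht
      rw [mem_filter, mem_BadQ, not_lt] at ht
      exact ht.2
    refine (Finset.sum_le_card_nsmul _ _ _ h2).trans ?_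
    rw [nsmul_eq_mul, mul_comm]
    refine mul_le_mul_of_nonneg_left ?_ hB
    have h3 := card_filter_le T0 (fun t => ¬ par x t ∈ BadQ L χ B)
    have h4 : T0.card = s.card * (U * N) := by
      rw [hT0, card_product, card_product, hIc, card_range]
    rw [h4] at h3
    have h5 : ((T0.filter (fun t => ¬ par x t ∈ BadQ L χ B)).card : ℝ) ≤
        ((s.card * (U * N) : ℕ) : ℝ) := by exact_mod_cast h3
    push_cast at h5
    linarith
  · have h2 : ∀ t ∈ T0.filter (fun t => par x t ∈ BadQ L χ B),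
        ‖QQ L χ (par x t).1 (par x t).2‖ ≤ L := fun t _ => QQ_le L χ _ _
    refine (Finset.sum_le_card_nsmul _ _ _ h2).trans ?_
    rw [nsmul_eq_mul, mul_comm]
    refine mul_le_mul_of_nonneg_left ?_ (Nat.cast_nonneg _)
    apply Real.le_sqrt_of_sq_le
    -- Cauchy–Schwarz over the fibres
    set Y := T0.filter (fun t => par x t ∈ BadQ L χ B) with hY
    have h3 : Y.card = ∑ q ∈ BadQ L χ B, (Y.filter fun t => par x t = q).card := by
      refine card_eq_sum_card_fiberwise ?_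
      intro t ht
      rw [hY, mem_coe, mem_filter] at ht
      exact ht.2
    have h4 : (Y.card : ℝ) ^ 2 ≤ (BadQ L χ B).card *
        ∑ q ∈ BadQ L χ B, ((Y.filter fun t => par x t = q).card : ℝ) ^ 2 := by
      rw [h3]
      push_cast
      exact sq_sum_le_card_mul_sum_sq
    refine h4.trans (mul_le_mul_of_nonneg_left ?_ (Nat.cast_nonneg _))
    refine le_trans ?_ (energy_count U N T hU hN1 hUN hT s x)
    have h5 : ∑ q ∈ BadQ L χ B, ((Y.filter fun t => par x t = q).card) ^ 2 ≤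
        ((T0 ×ˢ T0).filter fun t => par x t.1 = par x t.2).card := by
      have h6 : ∑ q ∈ BadQ L χ B, ((Y.filter fun t => par x t = q).card) ^ 2 =
          (((BadQ L χ B).sigma fun q => (Y.filter fun t => par x t = q) ×ˢ
            (Y.filter fun t => par x t = q))).card := by
        rw [card_sigma]
        exact Finset.sum_congr rfl fun q _ => by rw [card_product, sq]
      rw [h6]
      refine card_le_card_of_injOn (fun r => r.2) ?_ ?_
      · rintro ⟨q, t, t'⟩ hr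
        rw [mem_coe, mem_sigma, mem_product, mem_filter, mem_filter, hY, mem_filter,
          mem_filter] at hr
        rw [mem_coe, mem_filter, mem_product]
        exact ⟨⟨hr.2.1.1.1, hr.2.2.1.1⟩, hr.2.1.2.trans hr.2.2.2.symm⟩
      · rintro ⟨q, t, t'⟩ hr ⟨q', t1, t1'⟩ hr' hh
        rw [mem_coe, mem_sigma, mem_product, mem_filter, mem_filter] at hr hr'
        simp only [Prod.mk.injEq] at hh
        obtain ⟨rfl, rfl⟩ := hh
        have : q = q' := hr.2.1.2.symm.trans hr'.2.1.2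
        subst this
        rfl
    exact_mod_cast h5

end Pool.Agent.H424.QP
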